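import Pool.Agent.Helper10.Sw.Cls

/-! Codes of the triples outside a set of exceptional triples. -/

set_option autoImplicit false
set_option linter.unusedSectionVars false
set_option maxRecDepth 100000
open Finset

namespace Pool.Agent.Helper10.Sw

section
variable {V : Type} [DecidableEq V] {R : V → V → Prop} {H E : Finset (Finset V)}

theorem perm_notMem (a b c : V) (hn : ({a, b, c} : Finset V) ∉ E) :
    ({a, c, b} : Finset V) ∉ E ∧ ({b, a, c} : Finset V) ∉ E ∧ ({b, c, a} : Finset V) ∉ E ∧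
    ({c, a, b} : Finset V) ∉ E ∧ ({c, b, a} : Finset V) ∉ E := by
  have sw1 : ∀ a b c : V, ({a, b, c} : Finset V) = {b, a, c} := fun a b c =>
    Finset.insert_comm a b {c}
  have sw2 : ∀ a b c : V, ({a, b, c} : Finset V) = {a, c, b} := fun a b c => by
    rw [Finset.pair_comm b c]
  refine ⟨by rwa [sw2], by rwa [sw1], ?_, ?_, ?_⟩
  · rw [sw2 b c a, sw1 b a c]; exact hn
  · rw [sw1 c a b, sw2 a c b]; exact hn
  · rw [sw2 c b a, sw1 c a b, sw2 a c b]; exact hn

theorem ok_s (hO : ∀ x y, R x y → ¬ R y x)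
    (hT : ∀ x y z, ({x, y, z} : Finset V) ∉ E → R x y → R y z → R x z →
      ({x, y, z} : Finset V) ∈ H)
    (hE : ∀ x y z, ({x, y, z} : Finset V) ∉ E → x ≠ y → x ≠ z → y ≠ z →
      ({x, y, z} : Finset V) ∈ H → R x y ∨ R y x ∨ R x z ∨ R z x ∨ R y z ∨ R z y)
    (hS : ∀ x y z, ({x, y, z} : Finset V) ∉ E → y ≠ z → R x y → R x z → ¬ R y z → ¬ R z y →
      ({x, y, z} : Finset V) ∉ H) (a b c : V) (hn : ({a, b, c} : Finset V) ∉ E) :
    okc OKs (ty (rl R a b) (rl R a c) (rl R b c) (hd H a b c)) = true := by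
  obtain ⟨q1, q2, q3, q4, q5⟩ := perm_notMem a b c hn
  have ne : ∀ x y, R x y → x ≠ y := fun x y h e => hO x y h (e ▸ e ▸ h)
  have z0 : ∀ x y z, ({x, y, z} : Finset V) ∉ E → hd H x y z = 0 → R x y → R y z → R x z →
      False := by
    intro x y z hq h h1 h2 h3
    exact hd_zero h ⟨ne _ _ h1, ne _ _ h3, ne _ _ h2, hT x y z hq h1 h2 h3⟩
  rcases ok_table _ (rl_lt (R := R) a b) _ (rl_lt (R := R) a c) _ (rl_lt (R := R) b c) _
    (hd_lt (H := H) a b c) with h | ⟨h0, h⟩ | ⟨h1, h⟩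
  · exact h
  · exfalso
    have p1 : hd H a c b = 0 := (hd_s2 a b c).symm.trans h0
    have p2 : hd H b a c = 0 := (hd_s1 a b c).symm.trans h0
    have p3 : hd H c a b = 0 := (hd_s1 a c b).symm.trans p1
    have p4 : hd H b c a = 0 := (hd_s2 b a c).symm.trans p2
    have p5 : hd H c b a = 0 := (hd_s2 c a b).symm.trans p3
    rcases h with ⟨x, y, z⟩ | ⟨x, y, z⟩ | ⟨x, y, z⟩ | ⟨x, y, z⟩ | ⟨x, y, z⟩ | ⟨x, y, z⟩
    · exact z0 a b c hn h0 (rl1 x) (rl1 z) (rl1 y)
    · exact z0 a c b q1 p1 (rl1 y) (rl2 z) (rl1 x)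
    · exact z0 c a b q4 p3 (rl2 y) (rl1 x) (rl2 z)
    · exact z0 b a c q2 p2 (rl2 x) (rl1 y) (rl1 z)
    · exact z0 b c a q3 p4 (rl1 z) (rl2 y) (rl2 x)
    · exact z0 c b a q5 p5 (rl2 z) (rl2 x) (rl2 y)
  · exfalso
    obtain ⟨n1, n2, n3, m⟩ := hd_one h1
    rcases h with ⟨x, y, z⟩ | ⟨x, y, z⟩ | ⟨x, y, z⟩ | ⟨x, y, z⟩
    · have e1 := rl0 x
      have e2 := rl0 y
      have e3 := rl0 z
      rcases hE a b c hn n1 n2 n3 m with h | h | h | h | h | h
      exacts [e1.1 h, e1.2 h, e2.1 h, e2.2 h, e3.1 h, e3.2 h]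
    · exact hS a b c hn n3 (rl1 x) (rl1 y) (rl0 z).1 (rl0 z).2 m
    · have e : ({a, b, c} : Finset V) = {b, a, c} := Finset.insert_comm a b {c}
      exact hS b a c q2 n2 (rl2 x) (rl1 z) (rl0 y).1 (rl0 y).2 (e ▸ m)
    · have e : ({a, b, c} : Finset V) = {c, a, b} := by
        rw [Finset.pair_comm b c, Finset.insert_comm]
      exact hS c a b q4 n1 (rl2 y) (rl2 z) (rl0 x).1 (rl0 x).2 (e ▸ m)

/-- no edge is a path `x → y → z` with `x`, `z` not adjacent -/
theorem ok_a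
    (hP : ∀ x y z, ({x, y, z} : Finset V) ∉ E → x ≠ z → R x y → R y z → ¬ R x z → ¬ R z x → ({x, y, z} : Finset V) ∉ H)
    (a b c : V) (hn : ({a, b, c} : Finset V) ∉ E)
    (h0 : okc OKs (ty (rl R a b) (rl R a c) (rl R b c) (hd H a b c)) = true) :
    okc OKa (ty (rl R a b) (rl R a c) (rl R b c) (hd H a b c)) = true := by
  obtain ⟨q1, q2, q3, q4, q5⟩ := perm_notMem a b c hn
  rcases tab_a _ (rl_lt (R := R) a b) _ (rl_lt (R := R) a c) _ (rl_lt (R := R) b c) _
    (hd_lt (H := H) a b c) h0 with h | ⟨h1, h⟩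
  · exact h
  · exfalso
    obtain ⟨n1, n2, n3, m⟩ := hd_one h1
    have e1 : ({a, b, c} : Finset V) = {a, c, b} := by rw [Finset.pair_comm b c]
    have e2 : ({a, b, c} : Finset V) = {b, a, c} := Finset.insert_comm a b {c}
    have e3 : ({a, b, c} : Finset V) = {b, c, a} := by rw [e2, Finset.pair_comm a c]
    have e4 : ({a, b, c} : Finset V) = {c, a, b} := by rw [e1, Finset.insert_comm]
    have e5 : ({a, b, c} : Finset V) = {c, b, a} := by rw [e4, Finset.pair_comm a b]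
    rcases h with ⟨x, y, z⟩ | ⟨x, y, z⟩ | ⟨x, y, z⟩ | ⟨x, y, z⟩ | ⟨x, y, z⟩ | ⟨x, y, z⟩
    · exact hP a c b q1 n1 (rl1 y) (rl2 z) (rl0 x).1 (rl0 x).2 (e1 ▸ m)
    · exact hP b c a q3 n1.symm (rl1 z) (rl2 y) (rl0 x).2 (rl0 x).1 (e3 ▸ m)
    · exact hP a b c hn n2 (rl1 x) (rl1 z) (rl0 y).1 (rl0 y).2 m
    · exact hP c a b q4 n3.symm (rl2 y) (rl1 x) (rl0 z).2 (rl0 z).1 (e4 ▸ m)
    · exact hP c b a q5 n2.symm (rl2 z) (rl2 x) (rl0 y).2 (rl0 y).1 (e5 ▸ m)
    · exact hP b a c q2 n3 (rl2 x) (rl1 y) (rl0 z).1 (rl0 z).2 (e2 ▸ m)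

/-- no edge spans a pair of adjacent vertices and a vertex adjacent to neither -/
theorem ok_b
    (hB : ∀ x y z, ({x, y, z} : Finset V) ∉ E → x ≠ y → x ≠ z → y ≠ z → ¬ R x z → ¬ R z x → ¬ R y z → ¬ R z y →
      ({x, y, z} : Finset V) ∉ H)
    (a b c : V) (hn : ({a, b, c} : Finset V) ∉ E)
    (h0 : okc OKs (ty (rl R a b) (rl R a c) (rl R b c) (hd H a b c)) = true) :
    okc OKb (ty (rl R a b) (rl R a c) (rl R b c) (hd H a b c)) = true := by
  obtain ⟨q1, q2, q3, q4, q5⟩ := perm_notMem a b c hn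
  rcases tab_b _ (rl_lt (R := R) a b) _ (rl_lt (R := R) a c) _ (rl_lt (R := R) b c) _
    (hd_lt (H := H) a b c) h0 with h | ⟨h1, h⟩
  · exact h
  · exfalso
    obtain ⟨n1, n2, n3, m⟩ := hd_one h1
    rcases h with ⟨x, y⟩ | ⟨x, z⟩ | ⟨y, z⟩
    · have e : ({a, b, c} : Finset V) = {b, c, a} := by
        rw [Finset.insert_comm a b, Finset.pair_comm a c]
      exact hB b c a q3 n3 n1.symm n2.symm (rl0 x).2 (rl0 x).1 (rl0 y).2 (rl0 y).1 (e ▸ m)
    · have e : ({a, b, c} : Finset V) = {a, c, b} := by rw [Finset.pair_comm b c]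
      exact hB a c b q1 n2 n1 n3.symm (rl0 x).1 (rl0 x).2 (rl0 z).2 (rl0 z).1 (e ▸ m)
    · exact hB a b c hn n1 n2 n3 (rl0 y).1 (rl0 y).2 (rl0 z).1 (rl0 z).2 m

/-- every triple with exactly one arc is an edge -/
theorem ok_d (hir : ∀ x, ¬ R x x)
    (hD : ∀ x y z, ({x, y, z} : Finset V) ∉ E → x ≠ z → y ≠ z → R x y → ¬ R x z → ¬ R z x → ¬ R y z → ¬ R z y →
      ({x, y, z} : Finset V) ∈ H)
    (a b c : V) (hn : ({a, b, c} : Finset V) ∉ E)
    (h0 : okc OKs (ty (rl R a b) (rl R a c) (rl R b c) (hd H a b c)) = true) :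
    okc OKd (ty (rl R a b) (rl R a c) (rl R b c) (hd H a b c)) = true := by
  obtain ⟨q1, q2, q3, q4, q5⟩ := perm_notMem a b c hn
  rcases tab_d _ (rl_lt (R := R) a b) _ (rl_lt (R := R) a c) _ (rl_lt (R := R) b c) _
    (hd_lt (H := H) a b c) h0 with h | ⟨h0, h⟩
  · exact h
  · exfalso
    have hz := hd_zero h0
    have e2 : ({a, b, c} : Finset V) = {b, a, c} := Finset.insert_comm a b {c}
    have e3 : ({a, b, c} : Finset V) = {b, c, a} := by rw [e2, Finset.pair_comm a c]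
    have e1 : ({a, b, c} : Finset V) = {a, c, b} := by rw [Finset.pair_comm b c]
    have e4 : ({a, b, c} : Finset V) = {c, a, b} := by rw [e1, Finset.insert_comm]
    have e5 : ({a, b, c} : Finset V) = {c, b, a} := by rw [e4, Finset.pair_comm a b]
    rcases h with ⟨x, y, z⟩ | ⟨x, y, z⟩ | ⟨x, y, z⟩
    · have x' := rl0 x
      have y' := rl0 y
      have hab : a ≠ b := by
        rintro rfl
        rcases rl_ne z with h | h
        exacts [y'.1 h, y'.2 h]
      have hac : a ≠ c := by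
        rintro rfl
        rcases rl_ne z with h | h
        exacts [x'.2 h, x'.1 h]
      have hbc : b ≠ c := by
        rintro rfl
        rcases rl_ne z with h | h <;> exact hir _ h
      rcases rl_ne z with h | h
      · exact hz ⟨hab, hac, hbc, e3 ▸ hD b c a q3 hab.symm hac.symm h x'.2 x'.1 y'.2 y'.1⟩
      · exact hz ⟨hab, hac, hbc, e5 ▸ hD c b a q5 hac.symm hab.symm h y'.2 y'.1 x'.2 x'.1⟩
    · have x' := rl0 x
      have z' := rl0 z
      have hab : a ≠ b := by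
        rintro rfl
        rcases rl_ne y with h | h
        exacts [z'.1 h, z'.2 h]
      have hbc : b ≠ c := by
        rintro rfl
        rcases rl_ne y with h | h
        exacts [x'.1 h, x'.2 h]
      have hac : a ≠ c := by
        rintro rfl
        rcases rl_ne y with h | h <;> exact hir _ h
      rcases rl_ne y with h | h
      · exact hz ⟨hab, hac, hbc, e1 ▸ hD a c b q1 hab hbc.symm h x'.1 x'.2 z'.2 z'.1⟩
      · exact hz ⟨hab, hac, hbc, e4 ▸ hD c a b q4 hbc.symm hab h z'.2 z'.1 x'.1 x'.2⟩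
    · have y' := rl0 y
      have z' := rl0 z
      have hac : a ≠ c := by
        rintro rfl
        rcases rl_ne x with h | h
        exacts [z'.2 h, z'.1 h]
      have hbc : b ≠ c := by
        rintro rfl
        rcases rl_ne x with h | h
        exacts [y'.1 h, y'.2 h]
      have hab : a ≠ b := by
        rintro rfl
        rcases rl_ne x with h | h <;> exact hir _ h
      rcases rl_ne x with h | h
      · exact hz ⟨hab, hac, hbc, hD a b c hn hac hbc h y'.1 y'.2 z'.1 z'.2⟩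
      · exact hz ⟨hab, hac, hbc, e2 ▸ hD b a c q2 hbc hac h z'.1 z'.2 y'.1 y'.2⟩

end

end Pool.Agent.Helper10.Sw
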