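import Pool.Agent.Helper10.Sw.Rob
import Pool.Agent.Helper10.Sw.Ok

/-! The final count with exceptional triples. -/

set_option autoImplicit false
set_option maxRecDepth 100000
open Finset

namespace Pool.Agent.Helper10.Sw

theorem lk_le (X D T i j : ℕ) : lk X D T i j ≤ 18446744073709551616 :=
  Nat.le_of_lt (Nat.mod_lt _ (by decide))

theorem top_rob {n : ℕ} (H : Finset (Finset (Fin n))) (h3 : ∀ e ∈ H, e.card = 3)
    (K O3 O1 M C e : ℕ) (hK : 0 < K) (hC : 6 * (90 * K + 75 * M) ≤ C * K)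
    (hf : 10 * ((9 * K : ℕ) : ℤ) * ((Fintype.card (Fin n) : ℤ) ^ 2 * ∑ a, ∑ b, ∑ c, (hd H a b c : ℤ))
      + (60 * O3 + 15 * O1) * (Fintype.card (Fin n) : ℤ) ^ 5 ≤
      ((60 * O3 + 15 * O1 + 50 * K : ℕ) : ℤ) * (Fintype.card (Fin n) : ℤ) ^ 5
      + (10 * ((9 * K : ℕ) : ℤ) + 75 * M) * (60 * ((Fintype.card (Fin n) : ℤ) ^ 2 * e))) :
    54 * H.card ≤ 5 * n ^ 3 + C * e := by
  rw [Fintype.card_fin] at hf
  push_cast at hf
  have h6 : ((6 * H.card : ℕ) : ℤ) ≤ ∑ a, ∑ b, ∑ c, (hd H a b c : ℤ) := by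
    exact_mod_cast six_le H h3
  push_cast at h6
  rcases Nat.eq_zero_or_pos n with h0 | hn
  · subst h0
    have : H = ∅ := by
      refine eq_empty_of_forall_notMem fun e he => ?_
      have := h3 e he
      rw [Subsingleton.elim e ∅, card_empty] at this
      exact absurd this (by decide)
    rw [this]
    simp
  · have hn' : (0 : ℤ) < (n : ℤ) := by exact_mod_cast hn
    have hK' : (0 : ℤ) < (K : ℤ) := by exact_mod_cast hK
    have hC' : 6 * (90 * (K : ℤ) + 75 * M) ≤ C * K := by exact_mod_cast hC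
    have hp : (0 : ℤ) < (n : ℤ) ^ 2 := by positivity
    have he : (0 : ℤ) ≤ (e : ℤ) := by positivity
    have k1 : (n : ℤ) ^ 2 * (540 * K * H.card) ≤
        (n : ℤ) ^ 2 * (50 * K * (n : ℤ) ^ 3 + (90 * K + 75 * M) * (60 * e)) := by
      have := mul_le_mul_of_nonneg_left h6 (by positivity : (0 : ℤ) ≤ 90 * (K : ℤ) * (n : ℤ) ^ 2)
      nlinarith
    have k2 := le_of_mul_le_mul_left k1 hp
    have k3 : (90 * (K : ℤ) + 75 * M) * (60 * e) ≤ 10 * (C * K) * e := by
      have := mul_le_mul_of_nonneg_right hC' he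
      nlinarith
    have k4 : (K : ℤ) * (54 * H.card) ≤ K * (5 * (n : ℤ) ^ 3 + C * e) := by nlinarith
    have h := le_of_mul_le_mul_left k4 hK'
    exact_mod_cast h

end Pool.Agent.Helper10.Sw
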