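import Pool.Agent.Helper10.Sw.Top

/-! The three classes of pairs of a 3-graph and an oriented graph. -/

set_option autoImplicit false
set_option linter.unusedSectionVars false
set_option synthInstance.maxSize 100000
set_option maxRecDepth 100000
open Finset

namespace Pool.Agent.Helper10.Sw

/-- no edge is a path with two arcs -/
def OKa : ℕ := 0x367b9a71bd9fff
/-- no edge spans exactly one arc -/
def OKb : ℕ := 0x37dfad01bd9fff
/-- every triple with exactly one arc is an edge -/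
def OKd : ℕ := 0x37ffbf71b99db1

theorem tab_a : ∀ x < 3, ∀ y < 3, ∀ z < 3, ∀ h < 2, okc OKs (ty x y z h) = true →
    okc OKa (ty x y z h) = true ∨ (h = 1 ∧ ((x = 0 ∧ y = 1 ∧ z = 2) ∨ (x = 0 ∧ y = 2 ∧ z = 1) ∨
      (x = 1 ∧ y = 0 ∧ z = 1) ∨ (x = 1 ∧ y = 2 ∧ z = 0) ∨ (x = 2 ∧ y = 0 ∧ z = 2) ∨
      (x = 2 ∧ y = 1 ∧ z = 0))) := by
  decide

theorem tab_b : ∀ x < 3, ∀ y < 3, ∀ z < 3, ∀ h < 2, okc OKs (ty x y z h) = true →
    okc OKb (ty x y z h) = true ∨ (h = 1 ∧ ((x = 0 ∧ y = 0) ∨ (x = 0 ∧ z = 0) ∨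
      (y = 0 ∧ z = 0))) := by
  decide

theorem tab_d : ∀ x < 3, ∀ y < 3, ∀ z < 3, ∀ h < 2, okc OKs (ty x y z h) = true →
    okc OKd (ty x y z h) = true ∨ (h = 0 ∧ ((x = 0 ∧ y = 0 ∧ z ≠ 0) ∨ (x = 0 ∧ y ≠ 0 ∧ z = 0) ∨
      (x ≠ 0 ∧ y = 0 ∧ z = 0))) := by
  decide

section
variable {V : Type} [DecidableEq V] {R : V → V → Prop} {H : Finset (Finset V)}

theorem Adm.mono {r : V → V → ℕ} {h : V → V → V → ℕ} {OK OK' : ℕ} (A : Adm r h OK)
    (hok : ∀ a b c, okc OK' (ty (r a b) (r a c) (r b c) (h a b c)) = true) : Adm r h OK' :=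
  ⟨A.pr, A.h01, A.s1, A.s2, hok, A.k4⟩

/-- no edge is a path `x → y → z` with `x`, `z` not adjacent -/
theorem adm_a (A : Adm (rl R) (hd H) OKs)
    (hP : ∀ x y z, x ≠ z → R x y → R y z → ¬ R x z → ¬ R z x → ({x, y, z} : Finset V) ∉ H) :
    Adm (rl R) (hd H) OKa := by
  refine A.mono fun a b c => ?_
  rcases tab_a _ (rl_lt (R := R) a b) _ (rl_lt (R := R) a c) _ (rl_lt (R := R) b c) _
    (hd_lt (H := H) a b c) (A.ok a b c) with h | ⟨h1, h⟩
  · exact h
  · exfalso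
    obtain ⟨n1, n2, n3, m⟩ := hd_one h1
    have e1 : ({a, b, c} : Finset V) = {a, c, b} := by rw [Finset.pair_comm b c]
    have e2 : ({a, b, c} : Finset V) = {b, a, c} := Finset.insert_comm a b {c}
    have e3 : ({a, b, c} : Finset V) = {b, c, a} := by rw [e2, Finset.pair_comm a c]
    have e4 : ({a, b, c} : Finset V) = {c, a, b} := by rw [e1, Finset.insert_comm]
    have e5 : ({a, b, c} : Finset V) = {c, b, a} := by rw [e4, Finset.pair_comm a b]
    rcases h with ⟨x, y, z⟩ | ⟨x, y, z⟩ | ⟨x, y, z⟩ | ⟨x, y, z⟩ | ⟨x, y, z⟩ | ⟨x, y, z⟩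
    · exact hP a c b n1 (rl1 y) (rl2 z) (rl0 x).1 (rl0 x).2 (e1 ▸ m)
    · exact hP b c a n1.symm (rl1 z) (rl2 y) (rl0 x).2 (rl0 x).1 (e3 ▸ m)
    · exact hP a b c n2 (rl1 x) (rl1 z) (rl0 y).1 (rl0 y).2 m
    · exact hP c a b n3.symm (rl2 y) (rl1 x) (rl0 z).2 (rl0 z).1 (e4 ▸ m)
    · exact hP c b a n2.symm (rl2 z) (rl2 x) (rl0 y).2 (rl0 y).1 (e5 ▸ m)
    · exact hP b a c n3 (rl2 x) (rl1 y) (rl0 z).1 (rl0 z).2 (e2 ▸ m)

/-- no edge spans a pair of adjacent vertices and a vertex adjacent to neither -/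
theorem adm_b (A : Adm (rl R) (hd H) OKs)
    (hB : ∀ x y z, x ≠ y → x ≠ z → y ≠ z → ¬ R x z → ¬ R z x → ¬ R y z → ¬ R z y →
      ({x, y, z} : Finset V) ∉ H) : Adm (rl R) (hd H) OKb := by
  refine A.mono fun a b c => ?_
  rcases tab_b _ (rl_lt (R := R) a b) _ (rl_lt (R := R) a c) _ (rl_lt (R := R) b c) _
    (hd_lt (H := H) a b c) (A.ok a b c) with h | ⟨h1, h⟩
  · exact h
  · exfalso
    obtain ⟨n1, n2, n3, m⟩ := hd_one h1
    rcases h with ⟨x, y⟩ | ⟨x, z⟩ | ⟨y, z⟩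
    · have e : ({a, b, c} : Finset V) = {b, c, a} := by
        rw [Finset.insert_comm a b, Finset.pair_comm a c]
      exact hB b c a n3 n1.symm n2.symm (rl0 x).2 (rl0 x).1 (rl0 y).2 (rl0 y).1 (e ▸ m)
    · have e : ({a, b, c} : Finset V) = {a, c, b} := by rw [Finset.pair_comm b c]
      exact hB a c b n2 n1 n3.symm (rl0 x).1 (rl0 x).2 (rl0 z).2 (rl0 z).1 (e ▸ m)
    · exact hB a b c n1 n2 n3 (rl0 y).1 (rl0 y).2 (rl0 z).1 (rl0 z).2 m

theorem rl_ne {x y : V} (h : rl R x y ≠ 0) : R x y ∨ R y x := by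
  by_contra hn
  push Not at hn
  apply h
  unfold rl
  rw [if_neg hn.1, if_neg hn.2]

/-- every triple with exactly one arc is an edge -/
theorem adm_d (A : Adm (rl R) (hd H) OKs) (hir : ∀ x, ¬ R x x)
    (hD : ∀ x y z, x ≠ z → y ≠ z → R x y → ¬ R x z → ¬ R z x → ¬ R y z → ¬ R z y →
      ({x, y, z} : Finset V) ∈ H) : Adm (rl R) (hd H) OKd := by
  refine A.mono fun a b c => ?_
  rcases tab_d _ (rl_lt (R := R) a b) _ (rl_lt (R := R) a c) _ (rl_lt (R := R) b c) _
    (hd_lt (H := H) a b c) (A.ok a b c) with h | ⟨h0, h⟩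
  · exact h
  · exfalso
    have hz := hd_zero h0
    have e2 : ({a, b, c} : Finset V) = {b, a, c} := Finset.insert_comm a b {c}
    have e3 : ({a, b, c} : Finset V) = {b, c, a} := by rw [e2, Finset.pair_comm a c]
    have e1 : ({a, b, c} : Finset V) = {a, c, b} := by rw [Finset.pair_comm b c]
    have e4 : ({a, b, c} : Finset V) = {c, a, b} := by rw [e1, Finset.insert_comm]
    have e5 : ({a, b, c} : Finset V) = {c, b, a} := by rw [e4, Finset.pair_comm a b]
    rcases h with ⟨x, y, z⟩ | ⟨x, y, z⟩ | ⟨x, y, z⟩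
    · have x' := rl0 x
      have y' := rl0 y
      have hab : a ≠ b := by
        rintro rfl
        rcases rl_ne z with h | h
        exacts [y'.1 h, y'.2 h]
      have hac : a ≠ c := by
        rintro rfl
        rcases rl_ne z with h | h
        exacts [x'.2 h, x'.1 h]
      have hbc : b ≠ c := by
        rintro rfl
        rcases rl_ne z with h | h <;> exact hir _ h
      rcases rl_ne z with h | h
      · exact hz ⟨hab, hac, hbc, e3 ▸ hD b c a hab.symm hac.symm h x'.2 x'.1 y'.2 y'.1⟩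
      · exact hz ⟨hab, hac, hbc, e5 ▸ hD c b a hac.symm hab.symm h y'.2 y'.1 x'.2 x'.1⟩
    · have x' := rl0 x
      have z' := rl0 z
      have hab : a ≠ b := by
        rintro rfl
        rcases rl_ne y with h | h
        exacts [z'.1 h, z'.2 h]
      have hbc : b ≠ c := by
        rintro rfl
        rcases rl_ne y with h | h
        exacts [x'.1 h, x'.2 h]
      have hac : a ≠ c := by
        rintro rfl
        rcases rl_ne y with h | h <;> exact hir _ h
      rcases rl_ne y with h | h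
      · exact hz ⟨hab, hac, hbc, e1 ▸ hD a c b hab hbc.symm h x'.1 x'.2 z'.2 z'.1⟩
      · exact hz ⟨hab, hac, hbc, e4 ▸ hD c a b hbc.symm hab h z'.2 z'.1 x'.1 x'.2⟩
    · have y' := rl0 y
      have z' := rl0 z
      have hac : a ≠ c := by
        rintro rfl
        rcases rl_ne x with h | h
        exacts [z'.2 h, z'.1 h]
      have hbc : b ≠ c := by
        rintro rfl
        rcases rl_ne x with h | h
        exacts [y'.1 h, y'.2 h]
      have hab : a ≠ b := by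
        rintro rfl
        rcases rl_ne x with h | h <;> exact hir _ h
      rcases rl_ne x with h | h
      · exact hz ⟨hab, hac, hbc, hD a b c hac hbc h y'.1 y'.2 z'.1 z'.2⟩
      · exact hz ⟨hab, hac, hbc, e2 ▸ hD b a c hbc hac h z'.1 z'.2 y'.1 y'.2⟩

end

end Pool.Agent.Helper10.Sw
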