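import Mathlib

/-! Codes of 3-graphs with an oriented graph on the same vertices. -/

set_option autoImplicit false
set_option maxRecDepth 100000

namespace Pool.Agent.Helper10.Sw

/-- code of a triple: the three relations and whether it is an edge -/
def ty (x y z h : ℕ) : ℕ :=
  Nat.add x (Nat.add (Nat.mul 3 y) (Nat.add (Nat.mul 9 z) (Nat.mul 27 h)))

/-- code of a further vertex: three relations and three edges -/
def fl (x y z a b c : ℕ) : ℕ :=
  Nat.add x (Nat.add (Nat.mul 3 y) (Nat.add (Nat.mul 9 z)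
    (Nat.mul 27 (Nat.add a (Nat.add (Nat.mul 2 b) (Nat.mul 4 c))))))

/-- compatible pairs of relation codes `(rel x y, rel y x)` -/
def Pr (d e : ℕ) : Prop := (d = 0 ∧ e = 0) ∨ (d = 1 ∧ e = 2) ∨ (d = 2 ∧ e = 1)

def A3 (f : ℕ → ℕ → Bool) : Bool := and (f 0 0) (and (f 1 2) (f 2 1))
def A2 (f : ℕ → Bool) : Bool := and (f 0) (f 1)

def nsum (n : ℕ) (f : ℕ → ℕ) : ℕ := Nat.rec 0 (fun k s => Nat.add s (f k)) n
def nall (n : ℕ) (f : ℕ → Bool) : Bool := Nat.rec true (fun k s => and s (f k)) n

theorem nsum_eq (n : ℕ) (f : ℕ → ℕ) : nsum n f = ∑ k ∈ Finset.range n, f k := by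
  induction n with
  | zero => rfl
  | succ n ih => rw [Finset.sum_range_succ, ← ih]; rfl

theorem nall_true {n : ℕ} {f : ℕ → Bool} (h : nall n f = true) : ∀ k < n, f k = true := by
  induction n with
  | zero => intro k hk; omega
  | succ n ih =>
    have h' : (nall n f && f n) = true := h
    rw [Bool.and_eq_true] at h'
    intro k hk
    rcases Nat.lt_succ_iff_lt_or_eq.mp hk with hk | rfl
    · exact ih h'.1 k hk
    · exact h'.2

theorem A3_true {f : ℕ → ℕ → Bool} (h : A3 f = true) {d e : ℕ} (hd : Pr d e) : f d e = true := by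
  have h' : (f 0 0 && (f 1 2 && f 2 1)) = true := h
  simp only [Bool.and_eq_true] at h'
  rcases hd with ⟨rfl, rfl⟩ | ⟨rfl, rfl⟩ | ⟨rfl, rfl⟩
  exacts [h'.1, h'.2.1, h'.2.2]

theorem A2_true {f : ℕ → Bool} (h : A2 f = true) {d : ℕ} (hd : d = 0 ∨ d = 1) : f d = true := by
  have h' : (f 0 && f 1) = true := h
  simp only [Bool.and_eq_true] at h'
  rcases hd with rfl | rfl
  exacts [h'.1, h'.2]

/-- entry of a table with 64 bits -/
def en (T i : ℕ) : ℕ := Nat.mod (Nat.shiftRight T (Nat.mul 64 i)) 18446744073709551616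

/-- row `i` of a table with rows of `w` bits -/
def rw' (w T i : ℕ) : ℕ := Nat.mod (Nat.shiftRight T (Nat.mul w i)) (Nat.pow 2 w)

/-- The entry `(i, j)` of the matrix with table `T` and rows of `D` entries, in terms of the codes
of flags, whose indices are listed in `X`. -/
def lk (X D T i j : ℕ) : ℕ :=
  en (rw' (Nat.mul 64 D) T (Nat.mod (Nat.shiftRight X (Nat.mul 8 i)) 256))
    (Nat.mod (Nat.shiftRight X (Nat.mul 8 j)) 256)

/-- index of a flag -/
def fx (X i : ℕ) : ℕ := Nat.mod (Nat.shiftRight X (Nat.mul 8 i)) 256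
/-- entry of a table with 32 bits -/
def eh (T i : ℕ) : ℕ := Nat.mod (Nat.shiftRight T (Nat.mul 32 i)) 4294967296

/-- type index (0 for the labelled types that are not used) -/
def tid (T τ : ℕ) : ℕ := Nat.mod (Nat.shiftRight T (Nat.mul 4 τ)) 16

/-- admissible code of a triple -/
def okc (T τ : ℕ) : Bool := Nat.beq (Nat.mod (Nat.shiftRight T τ) 2) 1

end Pool.Agent.Helper10.Sw
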