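import Pool.Agent.Helper10.Sw.Top

/-! Positive semidefinite tables from kernel checks. -/

set_option autoImplicit false
set_option maxRecDepth 100000
open Finset

namespace Pool.Agent.Helper10.Sw

/-- evaluates the number before it is used -/
def withLit (n : ℕ) (f : ℕ → Bool) : Bool := Nat.rec (f 0) (fun m _ => f (Nat.succ m)) n

theorem withLit_eq (n : ℕ) (f : ℕ → Bool) : withLit n f = f n := by cases n <;> rfl

/-- the values `f i j` (codes `< N`) are `O` plus a positive semidefinite form -/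
def Psd (N O : ℕ) (f : ℕ → ℕ → ℕ) : Prop :=
  ∃ (K : ℕ) (W : ℕ → ℕ) (l : ℕ → ℕ → ℤ), ∀ i j, i < N → j < N →
    (f i j : ℤ) = O + ∑ k ∈ range K, (W k : ℤ) * (l i k * l j k)

theorem Psd.symm {N O : ℕ} {f : ℕ → ℕ → ℕ} (h : Psd N O f) (i j : ℕ) (hi : i < N) (hj : j < N) :
    f i j = f j i := by
  obtain ⟨K, W, l, hl⟩ := h
  have : (f i j : ℤ) = f j i := by
    rw [hl i j hi hj, hl j i hj hi]
    congr 1
    exact sum_congr rfl fun k _ => by rw [mul_comm (l i k)]
  exact_mod_cast this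

/-- the weighted product of two rows -/
def ip (K C a b : ℕ) : ℕ := nsum K fun k => Nat.mul (en C k) (Nat.mul (en a k) (en b k))
/-- the weighted sum of a row -/
def ws (K C a : ℕ) : ℕ := nsum K fun k => Nat.mul (en C k) (en a k)

/-- check of the Gram representation: `D` rows, `K` columns, shift `S`, offset `O`, `T` the table of
the form, `L` the table of the rows (rows of `w` bits), `C` the weights, `R` the weighted row sums,
`Z` the constant -/
def gram (D K S O w T L C R Z lo hi : ℕ) : Bool :=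
  nall (Nat.sub hi lo) fun i' => withLit (Nat.add lo i') fun i => withLit (rw' w L i) fun a =>
    withLit (rw' (Nat.mul 64 D) T i) fun t =>
    and (Nat.beq (rw' 128 R i) (ws K C a))
    (nall (Nat.succ i) fun j => withLit (rw' w L j) fun b =>
      Nat.beq (Nat.add (en t j) (Nat.mul S (Nat.add (rw' 128 R i) (rw' 128 R j))))
        (Nat.add (ip K C a b) (Nat.add Z O)))

/-- symmetry of the table, and the constant -/
def gsym (D K S T C Z : ℕ) : Bool :=
  and (Nat.beq Z (Nat.mul (Nat.mul S S) (nsum K fun k => en C k)))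
    (nall D fun i => withLit (rw' (Nat.mul 64 D) T i) fun t => nall (Nat.succ i) fun j =>
      withLit (rw' (Nat.mul 64 D) T j) fun s => Nat.beq (en t j) (en s i))

theorem gram_row {D K S O w T L C R Z lo hi : ℕ} (h : gram D K S O w T L C R Z lo hi = true)
    (i : ℕ) (h1 : lo ≤ i) (h2 : i < hi) : rw' 128 R i = ws K C (rw' w L i) ∧ ∀ j ≤ i,
      en (rw' (64 * D) T i) j + S * (rw' 128 R i + rw' 128 R j) = ip K C (rw' w L i) (rw' w L j) + (Z + O) := by
  have a := nall_true h (i - lo) (Nat.sub_lt_sub_right h1 h2)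
  rw [withLit_eq, withLit_eq, withLit_eq] at a
  have e : Nat.add lo (i - lo) = i := by show lo + (i - lo) = i; omega
  rw [e, Bool.and_eq_true] at a
  refine ⟨Nat.eq_of_beq_eq_true a.1, fun j hj => ?_⟩
  have b := nall_true a.2 j (Nat.lt_succ_of_le hj)
  rw [withLit_eq] at b
  exact Nat.eq_of_beq_eq_true b

theorem gram_psd {D K S O w T L C R Z : ℕ} (N : ℕ) (X : ℕ) (hX : ∀ i < N, fx X i < D)
    (hs : gsym D K S T C Z = true)
    (h : ∀ i < D, rw' 128 R i = ws K C (rw' w L i) ∧ ∀ j ≤ i,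
      en (rw' (64 * D) T i) j + S * (rw' 128 R i + rw' 128 R j) =
        ip K C (rw' w L i) (rw' w L j) + (Z + O)) :
    Psd N O (lk X D T) := by
  unfold gsym at hs
  rw [Bool.and_eq_true] at hs
  have hZ : Z = S * S * ∑ k ∈ range K, en C k := by
    have := Nat.eq_of_beq_eq_true hs.1
    rw [nsum_eq] at this
    exact this
  have key : ∀ i j, i < D → j ≤ i → (en (rw' (64 * D) T i) j : ℤ) = O + ∑ k ∈ range K,
      (en C k : ℤ) * (((en (rw' w L i) k : ℤ) - S) * ((en (rw' w L j) k : ℤ) - S)) := by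
    intro i j hi hj
    obtain ⟨a, b⟩ := h i hi
    have c := b j hj
    have a' := (h j (lt_of_le_of_lt hj hi)).1
    rw [a, a', hZ] at c
    unfold ip ws at c
    rw [nsum_eq, nsum_eq, nsum_eq] at c
    have c' := congrArg (fun n : ℕ => (n : ℤ)) c
    simp only [Nat.mul_eq] at c'
    push_cast at c'
    have e : ∑ k ∈ range K, (en C k : ℤ) * (((en (rw' w L i) k : ℤ) - S) *
        ((en (rw' w L j) k : ℤ) - S)) = ∑ k ∈ range K, (en C k : ℤ) *
        ((en (rw' w L i) k : ℤ) * (en (rw' w L j) k : ℤ)) -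
        S * (∑ k ∈ range K, (en C k : ℤ) * (en (rw' w L i) k : ℤ) +
          ∑ k ∈ range K, (en C k : ℤ) * (en (rw' w L j) k : ℤ)) +
        S * S * ∑ k ∈ range K, (en C k : ℤ) := by
      rw [mul_add, mul_sum, mul_sum, mul_sum, ← sum_add_distrib, ← sum_sub_distrib,
        ← sum_add_distrib]
      exact sum_congr rfl fun k _ => by ring
    rw [e]
    linarith
  have sy : ∀ i j, i < D → j ≤ i → en (rw' (64 * D) T i) j = en (rw' (64 * D) T j) i := by
    intro i j hi hj
    have h1 := nall_true hs.2 i hi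
    rw [withLit_eq] at h1
    have h2 := nall_true h1 j (Nat.lt_succ_of_le hj)
    rw [withLit_eq] at h2
    exact Nat.eq_of_beq_eq_true h2
  refine ⟨K, fun k => en C k, fun i k => (en (rw' w L (fx X i)) k : ℤ) - S, fun i j hi hj => ?_⟩
  have e : lk X D T i j = en (rw' (64 * D) T (fx X i)) (fx X j) := rfl
  rw [e]
  rcases le_total (fx X j) (fx X i) with hij | hij
  · exact key _ _ (hX i hi) hij
  · rw [← sy _ _ (hX j hj) hij, key _ _ (hX j hj) hij]
    congr 1
    exact sum_congr rfl fun k _ => by ring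

/-- all indices are small -/
def fxc (N D X : ℕ) : Bool := nall N fun i => Nat.blt (fx X i) D

theorem fxc_true {N D X : ℕ} (h : fxc N D X = true) : ∀ i < N, fx X i < D := fun i hi => by
  have := nall_true h i hi
  exact Nat.le_of_ble_eq_true this

/-- selects the value at `0` or the function of the predecessor -/
def sel (n a : ℕ) (f : ℕ → ℕ) : ℕ := Nat.rec a (fun m _ => f m) n

theorem Psd.const (N O : ℕ) : Psd N O (fun _ _ => O) :=
  ⟨0, fun _ => 0, fun _ _ => 0, fun i j _ _ => by simp⟩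

/-- the index of a flag with two free vertices does not depend on their order -/
def flipc (X : ℕ) : Bool := nall 3 fun x => nall 3 fun y => A3 fun z z' => A2 fun g =>
  Nat.beq (fx X (ty x y z g)) (fx X (ty y x z' g))

theorem flip_of {X D T : ℕ} (h : flipc X = true) : ∀ x < 3, ∀ y < 3, ∀ z z' g j, Pr z z' → g < 2 →
    j < 54 → lk X D T (ty x y z g) j = lk X D T (ty y x z' g) j := by
  intro x hx y hy z z' g j hz hg _
  have a := A2_true (A3_true (nall_true (nall_true h x hx) y hy) hz) (by omega : g = 0 ∨ g = 1)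
  have b : fx X (ty x y z g) = fx X (ty y x z' g) := Nat.eq_of_beq_eq_true a
  have e : ∀ i, lk X D T i j = en (rw' (64 * D) T (fx X i)) (fx X j) := fun i => rfl
  rw [e, e, b]

theorem okc_lt {T n c : ℕ} (h : Nat.shiftRight T n = 0) (hc : okc T c = true) : c < n := by
  by_contra hn
  push Not at hn
  have a : Nat.mod (Nat.shiftRight T c) 2 = 1 := Nat.eq_of_beq_eq_true hc
  have b : Nat.shiftRight T c = 0 := by
    have h' : T >>> n = 0 := h
    have e : T >>> c = (T >>> n) >>> (c - n) := by rw [← Nat.shiftRight_add]; congr 1; omega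
    show T >>> c = 0
    rw [e, h']
    exact Nat.zero_shiftRight _
  rw [b] at a
  exact absurd a (by decide)

section
variable {V : Type} [Fintype V] (r : V → V → ℕ) (h : V → V → V → ℕ)
  (q : ℕ → ℕ → ℕ → ℕ) (q1 : ℕ → ℕ → ℕ)

theorem low3' (hr : ∀ x y, r x y < 3) (hh : ∀ a b c, h a b c < 2) (O3 : ℕ)
    (hq : ∀ τ < 54, Psd 216 O3 (q τ)) :
    (O3 : ℤ) * (Fintype.card V : ℤ) ^ 5 ≤
      ∑ x : Fin 5 → V, (F3v r h q (x 0) (x 1) (x 2) (x 3) (x 4) : ℤ) := by
  rw [conv (fun a b c d e => (F3v r h q a b c d e : ℤ))]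
  have e : (O3 : ℤ) * (Fintype.card V : ℤ) ^ 5 = ∑ a : V, ∑ b : V, ∑ c : V, ∑ d : V, ∑ e : V,
      (O3 : ℤ) := by
    simp only [sum_const, card_univ, nsmul_eq_mul]
    ring
  rw [e]
  refine sum_le_sum fun a _ => sum_le_sum fun b _ => sum_le_sum fun c _ => ?_
  obtain ⟨K, W, l, hl⟩ := hq (tyv r h a b c) (ty_lt (hr _ _) (hr _ _) (hr _ _) (hh _ _ _))
  have p := psd (range K) W (fun k u => l (flv r h a b c u) k)
  have e2 : ∀ d e : V, (F3v r h q a b c d e : ℤ) = O3 + ∑ k ∈ range K,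
      (W k : ℤ) * (l (flv r h a b c d) k * l (flv r h a b c e) k) := fun d e =>
    hl _ _ (fl_lt (hr _ _) (hr _ _) (hr _ _) (hh _ _ _) (hh _ _ _) (hh _ _ _))
      (fl_lt (hr _ _) (hr _ _) (hr _ _) (hh _ _ _) (hh _ _ _) (hh _ _ _))
  simp only [e2, sum_add_distrib]
  linarith

theorem low1' (hr : ∀ x y, r x y < 3) (hh : ∀ a b c, h a b c < 2) (O1 : ℕ)
    (hq1 : Psd 54 O1 q1) :
    (O1 : ℤ) * (Fintype.card V : ℤ) ^ 5 ≤
      ∑ x : Fin 5 → V, (F1v r h q1 (x 0) (x 1) (x 2) (x 3) (x 4) : ℤ) := by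
  obtain ⟨K, W, l, hl⟩ := hq1
  exact low1 r h q1 hr hh O1 K W l hl

end

/-- the averaged inequality, with the kernel checks -/
theorem flag_main' {V : Type} [Fintype V] {r : V → V → ℕ} {h : V → V → V → ℕ}
    {OK K B T O3 O1 : ℕ} {q : ℕ → ℕ → ℕ → ℕ} {q1 : ℕ → ℕ → ℕ} (A : Adm r h OK)
    (hq : ∀ τ < 54, Psd 216 O3 (q τ)) (hq1 : Psd 54 O1 q1)
    (hflip : ∀ x < 3, ∀ y < 3, ∀ z z' g j, Pr z z' → g < 2 → j < 54 →
      q1 (ty x y z g) j = q1 (ty y x z' g) j)
    (hred : redAll OK T = true)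
    (hchk : ∀ c, okc T c = true → ∃ T', okc T' c = true ∧ chkAll OK K B q q1 T' = true) :
    10 * K * ((Fintype.card V : ℤ) ^ 2 * ∑ a, ∑ b, ∑ c, (h a b c : ℤ))
      + (60 * O3 + 15 * O1) * (Fintype.card V : ℤ) ^ 5 ≤ B * (Fintype.card V : ℤ) ^ 5 := by
  have hr : ∀ x y, r x y < 3 := fun x y => by
    rcases A.pr x y with ⟨h, -⟩ | ⟨h, -⟩ | ⟨h, -⟩ <;> omega
  have hh : ∀ a b c, h a b c < 2 := fun a b c => by
    rcases A.h01 a b c with h | h <;> omega
  have b := bound_of A (K := K) (B := B) (q := q) (q1 := q1)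
    (fun a b c u v => (hq _ (ty_lt (hr _ _) (hr _ _) (hr _ _) (hh _ _ _))).symm _ _
      (fl_lt (hr _ _) (hr _ _) (hr _ _) (hh _ _ _) (hh _ _ _) (hh _ _ _))
      (fl_lt (hr _ _) (hr _ _) (hr _ _) (hh _ _ _) (hh _ _ _) (hh _ _ _)))
    (fun a b c d e => by
      have := hflip (r a b) (hr _ _) (r a c) (hr _ _) (r b c) (r c b) (h a b c) (tyv r h a d e)
        (A.pr _ _) (hh _ _ _) (ty_lt (hr _ _) (hr _ _) (hr _ _) (hh _ _ _))
      unfold F1v tyv
      unfold tyv at this
      rw [this, A.s2 a b c])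
    (fun a b c d e => hq1.symm _ _ (ty_lt (hr _ _) (hr _ _) (hr _ _) (hh _ _ _))
      (ty_lt (hr _ _) (hr _ _) (hr _ _) (hh _ _ _)))
    hred hchk
  have a3 := low3' r h q hr hh O3 hq
  have a1 := low1' r h q1 hr hh O1 hq1
  have a := sumEE h (F3v r h q) (F1v r h q1) K
  have b' : ∑ x : Fin 5 → V, (EE (F3v r h q) (F1v r h q1) h K (x 0) (x 1) (x 2) (x 3) (x 4) : ℤ)
      ≤ ∑ _x : Fin 5 → V, (B : ℤ) := sum_le_sum fun x _ => by exact_mod_cast b _ _ _ _ _
  have c : ∑ _x : Fin 5 → V, (B : ℤ) = B * (Fintype.card V : ℤ) ^ 5 := by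
    rw [sum_const, card_univ, nsmul_eq_mul, Fintype.card_fun, Fintype.card_fin]
    push_cast
    ring
  rw [c, a] at b'
  linarith

end Pool.Agent.Helper10.Sw
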