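import Pool.Agent.Helper10.Sw.Defs

/-! The sum of all table entries of a structure with five vertices. -/

set_option autoImplicit false
set_option maxRecDepth 100000

namespace Pool.Agent.Helper10.Sw

def leaf (K : ℕ) (q : ℕ → ℕ → ℕ → ℕ) (q1 : ℕ → ℕ → ℕ) (d01 e01 d02 e02 d03 e03 d04 e04 d12 e12 d13 e13 d14 e14 d23 e23 d24 e24 d34 e34 h012 h013 h014 h023 h024 h034 h123 h124 h134 h234 : ℕ) : ℕ :=
  Nat.add (Nat.mul K (Nat.add (h012)
    (Nat.add (h013)
    (Nat.add (h014)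
    (Nat.add (h023)
    (Nat.add (h024)
    (Nat.add (h034)
    (Nat.add (h123)
    (Nat.add (h124)
    (Nat.add (h134)
    (h234)))))))))))
    (Nat.add (q1 (ty d01 d02 d12 h012) (ty d03 d04 d34 h034))
    (Nat.add (q1 (ty d01 d03 d13 h013) (ty d02 d04 d24 h024))
    (Nat.add (q1 (ty d01 d04 d14 h014) (ty d02 d03 d23 h023))
    (Nat.add (q1 (ty e01 d12 d02 h012) (ty d13 d14 d34 h134))
    (Nat.add (q1 (ty e01 d13 d03 h013) (ty d12 d14 d24 h124))
    (Nat.add (q1 (ty e01 d14 d04 h014) (ty d12 d13 d23 h123))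
    (Nat.add (q1 (ty e02 e12 d01 h012) (ty d23 d24 d34 h234))
    (Nat.add (q1 (ty e02 d23 d03 h023) (ty e12 d24 d14 h124))
    (Nat.add (q1 (ty e02 d24 d04 h024) (ty e12 d23 d13 h123))
    (Nat.add (q1 (ty e03 e13 d01 h013) (ty e23 d34 d24 h234))
    (Nat.add (q1 (ty e03 e23 d02 h023) (ty e13 d34 d14 h134))
    (Nat.add (q1 (ty e03 d34 d04 h034) (ty e13 e23 d12 h123))
    (Nat.add (q1 (ty e04 e14 d01 h014) (ty e24 e34 d23 h234))
    (Nat.add (q1 (ty e04 e24 d02 h024) (ty e14 e34 d13 h134))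
    (Nat.add (q1 (ty e04 e34 d03 h034) (ty e14 e24 d12 h124))
    (Nat.add (q (ty d01 d02 d12 h012) (fl d03 d13 d23 h013 h023 h123) (fl d04 d14 d24 h014 h024 h124))
    (Nat.add (q (ty d01 d03 d13 h013) (fl d02 d12 e23 h012 h023 h123) (fl d04 d14 d34 h014 h034 h134))
    (Nat.add (q (ty d01 d04 d14 h014) (fl d02 d12 e24 h012 h024 h124) (fl d03 d13 e34 h013 h034 h134))
    (Nat.add (q (ty d02 d01 e12 h012) (fl d03 d23 d13 h023 h013 h123) (fl d04 d24 d14 h024 h014 h124))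
    (Nat.add (q (ty d02 d03 d23 h023) (fl d01 e12 e13 h012 h013 h123) (fl d04 d24 d34 h024 h034 h234))
    (Nat.add (q (ty d02 d04 d24 h024) (fl d01 e12 e14 h012 h014 h124) (fl d03 d23 e34 h023 h034 h234))
    (Nat.add (q (ty d03 d01 e13 h013) (fl d02 e23 d12 h023 h012 h123) (fl d04 d34 d14 h034 h014 h134))
    (Nat.add (q (ty d03 d02 e23 h023) (fl d01 e13 e12 h013 h012 h123) (fl d04 d34 d24 h034 h024 h234))
    (Nat.add (q (ty d03 d04 d34 h034) (fl d01 e13 e14 h013 h014 h134) (fl d02 e23 e24 h023 h024 h234))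
    (Nat.add (q (ty d04 d01 e14 h014) (fl d02 e24 d12 h024 h012 h124) (fl d03 e34 d13 h034 h013 h134))
    (Nat.add (q (ty d04 d02 e24 h024) (fl d01 e14 e12 h014 h012 h124) (fl d03 e34 d23 h034 h023 h234))
    (Nat.add (q (ty d04 d03 e34 h034) (fl d01 e14 e13 h014 h013 h134) (fl d02 e24 e23 h024 h023 h234))
    (Nat.add (q (ty e01 d12 d02 h012) (fl d13 d03 d23 h013 h123 h023) (fl d14 d04 d24 h014 h124 h024))
    (Nat.add (q (ty e01 d13 d03 h013) (fl d12 d02 e23 h012 h123 h023) (fl d14 d04 d34 h014 h134 h034))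
    (Nat.add (q (ty e01 d14 d04 h014) (fl d12 d02 e24 h012 h124 h024) (fl d13 d03 e34 h013 h134 h034))
    (Nat.add (q (ty d12 e01 e02 h012) (fl d13 d23 d03 h123 h013 h023) (fl d14 d24 d04 h124 h014 h024))
    (Nat.add (q (ty d12 d13 d23 h123) (fl e01 e02 e03 h012 h013 h023) (fl d14 d24 d34 h124 h134 h234))
    (Nat.add (q (ty d12 d14 d24 h124) (fl e01 e02 e04 h012 h014 h024) (fl d13 d23 e34 h123 h134 h234))
    (Nat.add (q (ty d13 e01 e03 h013) (fl d12 e23 d02 h123 h012 h023) (fl d14 d34 d04 h134 h014 h034))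
    (Nat.add (q (ty d13 d12 e23 h123) (fl e01 e03 e02 h013 h012 h023) (fl d14 d34 d24 h134 h124 h234))
    (Nat.add (q (ty d13 d14 d34 h134) (fl e01 e03 e04 h013 h014 h034) (fl d12 e23 e24 h123 h124 h234))
    (Nat.add (q (ty d14 e01 e04 h014) (fl d12 e24 d02 h124 h012 h024) (fl d13 e34 d03 h134 h013 h034))
    (Nat.add (q (ty d14 d12 e24 h124) (fl e01 e04 e02 h014 h012 h024) (fl d13 e34 d23 h134 h123 h234))
    (Nat.add (q (ty d14 d13 e34 h134) (fl e01 e04 e03 h014 h013 h034) (fl d12 e24 e23 h124 h123 h234))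
    (Nat.add (q (ty e02 e12 d01 h012) (fl d23 d03 d13 h023 h123 h013) (fl d24 d04 d14 h024 h124 h014))
    (Nat.add (q (ty e02 d23 d03 h023) (fl e12 d01 e13 h012 h123 h013) (fl d24 d04 d34 h024 h234 h034))
    (Nat.add (q (ty e02 d24 d04 h024) (fl e12 d01 e14 h012 h124 h014) (fl d23 d03 e34 h023 h234 h034))
    (Nat.add (q (ty e12 e02 e01 h012) (fl d23 d13 d03 h123 h023 h013) (fl d24 d14 d04 h124 h024 h014))
    (Nat.add (q (ty e12 d23 d13 h123) (fl e02 e01 e03 h012 h023 h013) (fl d24 d14 d34 h124 h234 h134))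
    (Nat.add (q (ty e12 d24 d14 h124) (fl e02 e01 e04 h012 h024 h014) (fl d23 d13 e34 h123 h234 h134))
    (Nat.add (q (ty d23 e02 e03 h023) (fl e12 e13 d01 h123 h012 h013) (fl d24 d34 d04 h234 h024 h034))
    (Nat.add (q (ty d23 e12 e13 h123) (fl e02 e03 e01 h023 h012 h013) (fl d24 d34 d14 h234 h124 h134))
    (Nat.add (q (ty d23 d24 d34 h234) (fl e02 e03 e04 h023 h024 h034) (fl e12 e13 e14 h123 h124 h134))
    (Nat.add (q (ty d24 e02 e04 h024) (fl e12 e14 d01 h124 h012 h014) (fl d23 e34 d03 h234 h023 h034))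
    (Nat.add (q (ty d24 e12 e14 h124) (fl e02 e04 e01 h024 h012 h014) (fl d23 e34 d13 h234 h123 h134))
    (Nat.add (q (ty d24 d23 e34 h234) (fl e02 e04 e03 h024 h023 h034) (fl e12 e14 e13 h124 h123 h134))
    (Nat.add (q (ty e03 e13 d01 h013) (fl e23 d02 d12 h023 h123 h012) (fl d34 d04 d14 h034 h134 h014))
    (Nat.add (q (ty e03 e23 d02 h023) (fl e13 d01 e12 h013 h123 h012) (fl d34 d04 d24 h034 h234 h024))
    (Nat.add (q (ty e03 d34 d04 h034) (fl e13 d01 e14 h013 h134 h014) (fl e23 d02 e24 h023 h234 h024))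
    (Nat.add (q (ty e13 e03 e01 h013) (fl e23 d12 d02 h123 h023 h012) (fl d34 d14 d04 h134 h034 h014))
    (Nat.add (q (ty e13 e23 d12 h123) (fl e03 e01 e02 h013 h023 h012) (fl d34 d14 d24 h134 h234 h124))
    (Nat.add (q (ty e13 d34 d14 h134) (fl e03 e01 e04 h013 h034 h014) (fl e23 d12 e24 h123 h234 h124))
    (Nat.add (q (ty e23 e03 e02 h023) (fl e13 e12 d01 h123 h013 h012) (fl d34 d24 d04 h234 h034 h024))
    (Nat.add (q (ty e23 e13 e12 h123) (fl e03 e02 e01 h023 h013 h012) (fl d34 d24 d14 h234 h134 h124))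
    (Nat.add (q (ty e23 d34 d24 h234) (fl e03 e02 e04 h023 h034 h024) (fl e13 e12 e14 h123 h134 h124))
    (Nat.add (q (ty d34 e03 e04 h034) (fl e13 e14 d01 h134 h013 h014) (fl e23 e24 d02 h234 h023 h024))
    (Nat.add (q (ty d34 e13 e14 h134) (fl e03 e04 e01 h034 h013 h014) (fl e23 e24 d12 h234 h123 h124))
    (Nat.add (q (ty d34 e23 e24 h234) (fl e03 e04 e02 h034 h023 h024) (fl e13 e14 e12 h134 h123 h124))
    (Nat.add (q (ty e04 e14 d01 h014) (fl e24 d02 d12 h024 h124 h012) (fl e34 d03 d13 h034 h134 h013))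
    (Nat.add (q (ty e04 e24 d02 h024) (fl e14 d01 e12 h014 h124 h012) (fl e34 d03 d23 h034 h234 h023))
    (Nat.add (q (ty e04 e34 d03 h034) (fl e14 d01 e13 h014 h134 h013) (fl e24 d02 e23 h024 h234 h023))
    (Nat.add (q (ty e14 e04 e01 h014) (fl e24 d12 d02 h124 h024 h012) (fl e34 d13 d03 h134 h034 h013))
    (Nat.add (q (ty e14 e24 d12 h124) (fl e04 e01 e02 h014 h024 h012) (fl e34 d13 d23 h134 h234 h123))
    (Nat.add (q (ty e14 e34 d13 h134) (fl e04 e01 e03 h014 h034 h013) (fl e24 d12 e23 h124 h234 h123))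
    (Nat.add (q (ty e24 e04 e02 h024) (fl e14 e12 d01 h124 h014 h012) (fl e34 d23 d03 h234 h034 h023))
    (Nat.add (q (ty e24 e14 e12 h124) (fl e04 e02 e01 h024 h014 h012) (fl e34 d23 d13 h234 h134 h123))
    (Nat.add (q (ty e24 e34 d23 h234) (fl e04 e02 e03 h024 h034 h023) (fl e14 e12 e13 h124 h134 h123))
    (Nat.add (q (ty e34 e04 e03 h034) (fl e14 e13 d01 h134 h014 h013) (fl e24 e23 d02 h234 h024 h023))
    (Nat.add (q (ty e34 e14 e13 h134) (fl e04 e03 e01 h034 h014 h013) (fl e24 e23 d12 h234 h124 h123))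
    (q (ty e34 e24 e23 h234) (fl e04 e03 e02 h034 h024 h023) (fl e14 e13 e12 h134 h124 h123))))))))))))))))))))))))))))))))))))))))))))))))))))))))))))))))))))))))))))

end Pool.Agent.Helper10.Sw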