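import Mathlib

/-! Statement of the theorem on 3-graphs between two systems of triples of an oriented graph. -/

set_option autoImplicit false

namespace Pool.Agent.Helper10.Sw.Stm

/-- `H` is a 3-graph on `n` vertices in which no four vertices span four edges. -/
def K43Free {n : ℕ} (H : Finset (Finset (Fin n))) : Prop :=
  (∀ e ∈ H, e.card = 3) ∧ ∀ S : Finset (Fin n), S.card = 4 → ∃ T ⊆ S, T.card = 3 ∧ T ∉ H

/-- `R` is the arc relation of an oriented graph (no loops, no two opposite arcs). -/
def Oriented {n : ℕ} (R : Fin n → Fin n → Prop) : Prop := ∀ x y, R x y → ¬ R y x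

/-- `x` and `y` are joined by an arc. -/
def Adj {n : ℕ} (R : Fin n → Fin n → Prop) (x y : Fin n) : Prop := R x y ∨ R y x

/-- Outside the set `E` of exceptional triples, every transitive triangle of `R` is an edge of `H`,
every edge of `H` spans an arc, and no edge of `H` spans exactly two arcs with a common tail. -/
structure Between {n : ℕ} (H : Finset (Finset (Fin n))) (R : Fin n → Fin n → Prop)
    (E : Finset (Finset (Fin n))) : Prop where
  transitive : ∀ x y z, ({x, y, z} : Finset (Fin n)) ∉ E → R x y → R y z → R x z →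
    ({x, y, z} : Finset (Fin n)) ∈ H
  arc : ∀ x y z, x ≠ y → x ≠ z → y ≠ z → ({x, y, z} : Finset (Fin n)) ∉ E →
    ({x, y, z} : Finset (Fin n)) ∈ H → Adj R x y ∨ Adj R x z ∨ Adj R y z
  star : ∀ x y z, y ≠ z → ({x, y, z} : Finset (Fin n)) ∉ E → R x y → R x z → ¬ Adj R y z →
    ({x, y, z} : Finset (Fin n)) ∉ H

/-- The set `S` contains a triple which spans exactly one arc and is (`b = true`) or is not
(`b = false`) an edge of `H`. -/
def OneArc {n : ℕ} (H : Finset (Finset (Fin n))) (R : Fin n → Fin n → Prop) (S : Finset (Fin n))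
    (b : Bool) : Prop :=
  ∃ x ∈ S, ∃ y ∈ S, ∃ z ∈ S, x ≠ z ∧ y ≠ z ∧ R x y ∧ ¬ Adj R x z ∧ ¬ Adj R y z ∧
    (({x, y, z} : Finset (Fin n)) ∈ H ↔ b = true)

/-- The set `S` contains an edge of `H` which spans exactly the two arcs `x → y → z`. -/
def PathEdge {n : ℕ} (H : Finset (Finset (Fin n))) (R : Fin n → Fin n → Prop)
    (S : Finset (Fin n)) : Prop :=
  ∃ x ∈ S, ∃ y ∈ S, ∃ z ∈ S, x ≠ z ∧ R x y ∧ R y z ∧ ¬ Adj R x z ∧
    ({x, y, z} : Finset (Fin n)) ∈ H

/-- No set of at most five vertices without exceptional triples contains at the same time an edge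
with exactly one arc, a non-edge with exactly one arc, and an edge which is a path. -/
def NotAll {n : ℕ} (H : Finset (Finset (Fin n))) (R : Fin n → Fin n → Prop)
    (E : Finset (Finset (Fin n))) : Prop :=
  ∀ S : Finset (Fin n), S.card ≤ 5 → (∀ T ⊆ S, T ∉ E) →
    ¬ (OneArc H R S true ∧ OneArc H R S false ∧ PathEdge H R S)

end Pool.Agent.Helper10.Sw.Stm
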