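import Pool.Agent.Helper10.Sw.Ok
import Pool.Agent.Helper10.Sw.Stm

/-! The local hypothesis in terms of codes. -/

set_option autoImplicit false
set_option maxRecDepth 100000
open Finset

namespace Pool.Agent.Helper10.Sw
open Stm

theorem local_codes {n : ℕ} {H E : Finset (Finset (Fin n))} {R : Fin n → Fin n → Prop}
    (hE : ∀ e ∈ E, e.card = 3) (hO : Oriented R) (hB : Between H R E) (hN : NotAll H R E)
    (x : Fin 5 → Fin n) (hx : ∀ i j k : Fin 5, ({x i, x j, x k} : Finset (Fin n)) ∉ E) :
    (∀ i j k : Fin 5, okc OKa (ty (rl R (x i) (x j)) (rl R (x i) (x k)) (rl R (x j) (x k))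
        (hd H (x i) (x j) (x k))) = true) ∨
    (∀ i j k : Fin 5, okc OKb (ty (rl R (x i) (x j)) (rl R (x i) (x k)) (rl R (x j) (x k))
        (hd H (x i) (x j) (x k))) = true) ∨
    (∀ i j k : Fin 5, okc OKd (ty (rl R (x i) (x j)) (rl R (x i) (x k)) (rl R (x j) (x k))
        (hd H (x i) (x j) (x k))) = true) := by
  classical
  set S : Finset (Fin n) := univ.image x with hS
  have hxS : ∀ i, x i ∈ S := fun i => mem_image_of_mem _ (mem_univ _)
  have hSc : S.card ≤ 5 := by
    refine card_image_le.trans ?_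
    simp
  have hSE : ∀ T ⊆ S, T ∉ E := by
    intro T hT hm
    obtain ⟨a, b, c, -, -, -, rfl⟩ := Finset.card_eq_three.mp (hE T hm)
    have ha : a ∈ S := hT (by simp)
    have hb : b ∈ S := hT (by simp)
    have hc : c ∈ S := hT (by simp)
    rw [hS, mem_image] at ha hb hc
    obtain ⟨i, -, rfl⟩ := ha
    obtain ⟨j, -, rfl⟩ := hb
    obtain ⟨k, -, rfl⟩ := hc
    exact hx i j k hm
  have hs : ∀ i j k : Fin 5, okc OKs (ty (rl R (x i) (x j)) (rl R (x i) (x k)) (rl R (x j) (x k))
      (hd H (x i) (x j) (x k))) = true := fun i j k =>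
    ok_s (E := E) hO hB.transitive
      (fun a b c h h1 h2 h3 h4 => by
        rcases hB.arc a b c h1 h2 h3 h h4 with (h | h) | (h | h) | (h | h) <;> tauto)
      (fun a b c h h1 h2 h3 h4 h5 => hB.star a b c h1 h h2 h3 (by
        rintro (h | h)
        exacts [h4 h, h5 h]))
      _ _ _ (hx i j k)
  set E' : Finset (Finset (Fin n)) := E ∪ univ.filter (fun T => ¬ T ⊆ S) with hE'
  have hm : ∀ a b c : Fin n, ({a, b, c} : Finset (Fin n)) ∉ E' →
      a ∈ S ∧ b ∈ S ∧ c ∈ S ∧ ({a, b, c} : Finset (Fin n)) ∉ E := by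
    intro a b c h
    rw [hE', mem_union, not_or, mem_filter] at h
    have h2 : ({a, b, c} : Finset (Fin n)) ⊆ S := by
      by_contra hn
      exact h.2 ⟨mem_univ _, hn⟩
    exact ⟨h2 (by simp), h2 (by simp), h2 (by simp), h.1⟩
  have hx' : ∀ i j k : Fin 5, ({x i, x j, x k} : Finset (Fin n)) ∉ E' := by
    intro i j k h
    rw [hE', mem_union, mem_filter] at h
    rcases h with h | ⟨-, h⟩
    · exact hx i j k h
    · apply h
      intro y hy
      simp only [mem_insert, mem_singleton] at hy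
      rcases hy with rfl | rfl | rfl <;> exact hxS _
  by_cases c3 : PathEdge H R S
  · by_cases c1 : OneArc H R S true
    · have c2 : ¬ OneArc H R S false := fun c2 => hN S hSc hSE ⟨c1, c2, c3⟩
      right; right
      intro i j k
      refine ok_d (E := E') (fun y h => hO y y h h) ?_ _ _ _ (hx' i j k) (hs i j k)
      intro a b c h h1 h2 h3 h4 h5 h6 h7
      obtain ⟨ma, mb, mc, -⟩ := hm a b c h
      by_contra hn
      refine c2 ⟨a, ma, b, mb, c, mc, h1, h2, h3, ?_, ?_, ?_⟩
      · rintro (h | h)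
        exacts [h4 h, h5 h]
      · rintro (h | h)
        exacts [h6 h, h7 h]
      · simp [hn]
    · right; left
      intro i j k
      refine ok_b (E := E') ?_ _ _ _ (hx' i j k) (hs i j k)
      intro a b c h h1 h2 h3 h4 h5 h6 h7 hH
      obtain ⟨ma, mb, mc, hE0⟩ := hm a b c h
      by_cases h8 : R a b
      · refine c1 ⟨a, ma, b, mb, c, mc, h2, h3, h8, ?_, ?_, ?_⟩
        · rintro (h | h)
          exacts [h4 h, h5 h]
        · rintro (h | h)
          exacts [h6 h, h7 h]
        · simp [hH]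
      · by_cases h9 : R b a
        · refine c1 ⟨b, mb, a, ma, c, mc, h3, h2, h9, ?_, ?_, ?_⟩
          · rintro (h | h)
            exacts [h6 h, h7 h]
          · rintro (h | h)
            exacts [h4 h, h5 h]
          · have e : ({b, a, c} : Finset (Fin n)) = {a, b, c} := Finset.insert_comm b a {c}
            rw [e]
            simp [hH]
        · rcases hB.arc a b c h1 h2 h3 hE0 hH with (h | h) | (h | h) | (h | h)
          exacts [h8 h, h9 h, h4 h, h5 h, h6 h, h7 h]
  · left
    intro i j k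
    refine ok_a (E := E') ?_ _ _ _ (hx' i j k) (hs i j k)
    intro a b c h h1 h2 h3 h4 h5 hH
    obtain ⟨ma, mb, mc, -⟩ := hm a b c h
    refine c3 ⟨a, ma, b, mb, c, mc, h1, h2, h3, ?_, hH⟩
    rintro (h | h)
    exacts [h4 h, h5 h]

end Pool.Agent.Helper10.Sw
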