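import Pool.Agent.Helper10.Sw.Sum

/-! The bound for all structures with five vertices from the kernel checks. -/

set_option autoImplicit false
set_option maxRecDepth 100000
set_option linter.unusedVariables false
open Finset

namespace Pool.Agent.Helper10.Sw

/-- code of a structure with four vertices -/
def cod4 (d01 d02 d12 d03 d13 d23 h012 h013 h023 h123 : ℕ) : ℕ :=
  Nat.add d01 (Nat.add (Nat.mul 3 d02) (Nat.add (Nat.mul 9 d12) (Nat.add (Nat.mul 27 d03)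
    (Nat.add (Nat.mul 81 d13) (Nat.add (Nat.mul 243 d23) (Nat.mul 729 (Nat.add h012
      (Nat.add (Nat.mul 2 h013) (Nat.add (Nat.mul 4 h023) (Nat.mul 8 h123)))))))))) 

/-- not all four triples are edges -/
def nk (a b c d : ℕ) : Bool := Nat.beq (Nat.mul (Nat.mul a b) (Nat.mul c d)) 0

def chkRep (OK K B : ℕ) (q : ℕ → ℕ → ℕ → ℕ) (q1 : ℕ → ℕ → ℕ)
    (d01 e01 d02 e02 d12 e12 d03 e03 d13 e13 d23 e23 h012 h013 h023 h123 : ℕ) : Bool :=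
  A3 fun d04 e04 => A3 fun d14 e14 => A2 fun h014 => cond (okc OK (ty d01 d04 d14 h014))
    (A3 fun d24 e24 => A2 fun h024 => cond (okc OK (ty d02 d04 d24 h024))
      (A2 fun h124 => cond (and (okc OK (ty d12 d14 d24 h124)) (nk h012 h014 h024 h124))
        (A3 fun d34 e34 => A2 fun h034 => cond (okc OK (ty d03 d04 d34 h034))
          (A2 fun h134 => cond (and (okc OK (ty d13 d14 d34 h134)) (nk h013 h014 h034 h134))
            (A2 fun h234 => cond (and (okc OK (ty d23 d24 d34 h234))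
                (and (nk h023 h024 h034 h234) (nk h123 h124 h134 h234)))
              (Nat.ble (leaf K q q1 d01 e01 d02 e02 d03 e03 d04 e04 d12 e12 d13 e13 d14 e14 d23 e23 d24 e24 d34 e34 h012 h013 h014 h023 h024 h034 h123 h124 h134 h234) B)
              true) true) true) true) true) true

def chkAll (OK K B : ℕ) (q : ℕ → ℕ → ℕ → ℕ) (q1 : ℕ → ℕ → ℕ) (T : ℕ) : Bool :=
  A3 fun d01 e01 => A3 fun d02 e02 => A3 fun d12 e12 => A3 fun d03 e03 => A3 fun d13 e13 =>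
  A3 fun d23 e23 => A2 fun h012 => A2 fun h013 => A2 fun h023 => A2 fun h123 =>
  cond (okc T (cod4 d01 d02 d12 d03 d13 d23 h012 h013 h023 h123))
    (chkRep OK K B q q1 d01 e01 d02 e02 d12 e12 d03 e03 d13 e13 d23 e23 h012 h013 h023 h123) true

def anyPerm (T d01 e01 d02 e02 d12 e12 d03 e03 d13 e13 d23 e23 h012 h013 h023 h123 : ℕ) : Bool :=
  or (okc T (cod4 d01 d02 d12 d03 d13 d23 h012 h013 h023 h123))
    (or (okc T (cod4 d01 d03 d13 d02 d12 e23 h013 h012 h023 h123))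
    (or (okc T (cod4 d02 d01 e12 d03 d23 d13 h012 h023 h013 h123))
    (or (okc T (cod4 d02 d03 d23 d01 e12 e13 h023 h012 h013 h123))
    (or (okc T (cod4 d03 d01 e13 d02 e23 d12 h013 h023 h012 h123))
    (or (okc T (cod4 d03 d02 e23 d01 e13 e12 h023 h013 h012 h123))
    (or (okc T (cod4 e01 d12 d02 d13 d03 d23 h012 h013 h123 h023))
    (or (okc T (cod4 e01 d13 d03 d12 d02 e23 h013 h012 h123 h023))
    (or (okc T (cod4 d12 e01 e02 d13 d23 d03 h012 h123 h013 h023))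
    (or (okc T (cod4 d12 d13 d23 e01 e02 e03 h123 h012 h013 h023))
    (or (okc T (cod4 d13 e01 e03 d12 e23 d02 h013 h123 h012 h023))
    (or (okc T (cod4 d13 d12 e23 e01 e03 e02 h123 h013 h012 h023))
    (or (okc T (cod4 e02 e12 d01 d23 d03 d13 h012 h023 h123 h013))
    (or (okc T (cod4 e02 d23 d03 e12 d01 e13 h023 h012 h123 h013))
    (or (okc T (cod4 e12 e02 e01 d23 d13 d03 h012 h123 h023 h013))
    (or (okc T (cod4 e12 d23 d13 e02 e01 e03 h123 h012 h023 h013))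
    (or (okc T (cod4 d23 e02 e03 e12 e13 d01 h023 h123 h012 h013))
    (or (okc T (cod4 d23 e12 e13 e02 e03 e01 h123 h023 h012 h013))
    (or (okc T (cod4 e03 e13 d01 e23 d02 d12 h013 h023 h123 h012))
    (or (okc T (cod4 e03 e23 d02 e13 d01 e12 h023 h013 h123 h012))
    (or (okc T (cod4 e13 e03 e01 e23 d12 d02 h013 h123 h023 h012))
    (or (okc T (cod4 e13 e23 d12 e03 e01 e02 h123 h013 h023 h012))
    (or (okc T (cod4 e23 e03 e02 e13 e12 d01 h023 h123 h013 h012))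
    (okc T (cod4 e23 e13 e12 e03 e02 e01 h123 h023 h013 h012))))))))))))))))))))))))

def redAll (OK T : ℕ) : Bool :=
  A3 fun d01 e01 => A3 fun d02 e02 => A3 fun d12 e12 => A2 fun h012 =>
  cond (okc OK (ty d01 d02 d12 h012))
    (A3 fun d03 e03 => A3 fun d13 e13 => A2 fun h013 => cond (okc OK (ty d01 d03 d13 h013))
      (A3 fun d23 e23 => A2 fun h023 => A2 fun h123 => cond (and (okc OK (ty d02 d03 d23 h023))
          (and (okc OK (ty d12 d13 d23 h123)) (nk h012 h013 h023 h123)))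
        (anyPerm T d01 e01 d02 e02 d12 e12 d03 e03 d13 e13 d23 e23 h012 h013 h023 h123) true) true) true

section
variable {V : Type} (r : V → V → ℕ) (h : V → V → V → ℕ)

/-- `r` and `h` are the codes of a 3-graph without four vertices spanning four edges and of an
oriented graph; the triples have codes allowed by `OK`. -/
structure Adm (OK : ℕ) : Prop where
  pr : ∀ x y, Pr (r x y) (r y x)
  h01 : ∀ a b c, h a b c = 0 ∨ h a b c = 1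
  s1 : ∀ a b c, h a b c = h b a c
  s2 : ∀ a b c, h a b c = h a c b
  ok : ∀ a b c, okc OK (ty (r a b) (r a c) (r b c) (h a b c)) = true
  k4 : ∀ a b c d, nk (h a b c) (h a b d) (h a c d) (h b c d) = true

variable {r h}

theorem cond_true {b c : Bool} (h1 : cond b c true = true) (h2 : b = true) : c = true := by
  subst h2
  exact h1

theorem chkRep_true {OK K B : ℕ} {q : ℕ → ℕ → ℕ → ℕ} {q1 : ℕ → ℕ → ℕ} (A : Adm r h OK)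
    (x0 x1 x2 x3 x4 : V) (H : chkRep OK K B q q1 (r x0 x1) (r x1 x0) (r x0 x2) (r x2 x0) (r x1 x2) (r x2 x1) (r x0 x3) (r x3 x0) (r x1 x3) (r x3 x1) (r x2 x3) (r x3 x2) (h x0 x1 x2) (h x0 x1 x3) (h x0 x2 x3) (h x1 x2 x3) = true) :
    EE (F3v r h q) (F1v r h q1) h K x0 x1 x2 x3 x4 ≤ B := by
  have a1 := cond_true (A2_true (A3_true (A3_true H (A.pr x0 x4)) (A.pr x1 x4))
    (A.h01 x0 x1 x4)) (A.ok x0 x1 x4)
  have a2 := cond_true (A2_true (A3_true a1 (A.pr x2 x4)) (A.h01 x0 x2 x4)) (A.ok x0 x2 x4)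
  have a3 := cond_true (A2_true a2 (A.h01 x1 x2 x4))
    (by rw [Bool.and_eq_true]; exact ⟨A.ok x1 x2 x4, A.k4 x0 x1 x2 x4⟩)
  have a4 := cond_true (A2_true (A3_true a3 (A.pr x3 x4)) (A.h01 x0 x3 x4)) (A.ok x0 x3 x4)
  have a5 := cond_true (A2_true a4 (A.h01 x1 x3 x4))
    (by rw [Bool.and_eq_true]; exact ⟨A.ok x1 x3 x4, A.k4 x0 x1 x3 x4⟩)
  have a6 := cond_true (A2_true a5 (A.h01 x2 x3 x4))
    (by rw [Bool.and_eq_true, Bool.and_eq_true]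
        exact ⟨A.ok x2 x3 x4, A.k4 x0 x2 x3 x4, A.k4 x1 x2 x3 x4⟩)
  rw [EE_leaf r h q q1 K A.s1 A.s2]
  exact Nat.le_of_ble_eq_true a6

theorem chkAll_true {OK K B T : ℕ} {q : ℕ → ℕ → ℕ → ℕ} {q1 : ℕ → ℕ → ℕ} (A : Adm r h OK)
    (H : chkAll OK K B q q1 T = true) (x0 x1 x2 x3 x4 : V)
    (hT : okc T (cod4 (r x0 x1) (r x0 x2) (r x1 x2) (r x0 x3) (r x1 x3) (r x2 x3) (h x0 x1 x2) (h x0 x1 x3) (h x0 x2 x3) (h x1 x2 x3)) = true) :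
    EE (F3v r h q) (F1v r h q1) h K x0 x1 x2 x3 x4 ≤ B :=
  chkRep_true A x0 x1 x2 x3 x4 (cond_true (A2_true (A2_true (A2_true (A2_true (A3_true (A3_true
    (A3_true (A3_true (A3_true (A3_true H (A.pr x0 x1)) (A.pr x0 x2)) (A.pr x1 x2)) (A.pr x0 x3))
    (A.pr x1 x3)) (A.pr x2 x3)) (A.h01 x0 x1 x2)) (A.h01 x0 x1 x3)) (A.h01 x0 x2 x3))
    (A.h01 x1 x2 x3)) hT)

theorem redAll_true {OK T : ℕ} (A : Adm r h OK) (H : redAll OK T = true) (x0 x1 x2 x3 : V) :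
    anyPerm T (r x0 x1) (r x1 x0) (r x0 x2) (r x2 x0) (r x1 x2) (r x2 x1) (r x0 x3) (r x3 x0) (r x1 x3) (r x3 x1) (r x2 x3) (r x3 x2) (h x0 x1 x2) (h x0 x1 x3) (h x0 x2 x3) (h x1 x2 x3) = true := by
  have a1 := cond_true (A2_true (A3_true (A3_true (A3_true H (A.pr x0 x1)) (A.pr x0 x2))
    (A.pr x1 x2)) (A.h01 x0 x1 x2)) (A.ok x0 x1 x2)
  have a2 := cond_true (A2_true (A3_true (A3_true a1 (A.pr x0 x3)) (A.pr x1 x3))
    (A.h01 x0 x1 x3)) (A.ok x0 x1 x3)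
  exact cond_true (A2_true (A2_true (A3_true a2 (A.pr x2 x3)) (A.h01 x0 x2 x3))
    (A.h01 x1 x2 x3)) (by rw [Bool.and_eq_true, Bool.and_eq_true]
                          exact ⟨A.ok x0 x2 x3, A.ok x1 x2 x3, A.k4 x0 x1 x2 x3⟩)

theorem bound_of {OK K B T : ℕ} {q : ℕ → ℕ → ℕ → ℕ} {q1 : ℕ → ℕ → ℕ} (A : Adm r h OK)
    (hq : ∀ a b c u v : V, F3v r h q a b c u v = F3v r h q a b c v u)
    (h1 : ∀ a b c d e : V, F1v r h q1 a b c d e = F1v r h q1 a c b d e)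
    (h2 : ∀ a b c d e : V, F1v r h q1 a b c d e = F1v r h q1 a d e b c)
    (hred : redAll OK T = true)
    (hchk : ∀ c, okc T c = true → ∃ T', okc T' c = true ∧ chkAll OK K B q q1 T' = true)
    (x0 x1 x2 x3 x4 : V) : EE (F3v r h q) (F1v r h q1) h K x0 x1 x2 x3 x4 ≤ B := by
  have key : ∀ y0 y1 y2 y3 : V, okc T (cod4 (r y0 y1) (r y0 y2) (r y1 y2) (r y0 y3) (r y1 y3)
      (r y2 y3) (h y0 y1 y2) (h y0 y1 y3) (h y0 y2 y3) (h y1 y2 y3)) = true →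
      EE (F3v r h q) (F1v r h q1) h K y0 y1 y2 y3 x4 ≤ B := by
    intro y0 y1 y2 y3 hy
    obtain ⟨T', hT', hc⟩ := hchk _ hy
    exact chkAll_true A hc y0 y1 y2 y3 x4 hT'
  have t01 := fun a b c d : V => EE01 (F3v r h q) (F1v r h q1) h K hq h1 h2 A.s1 A.s2 a b c d x4
  have t12 := fun a b c d : V => EE12 (F3v r h q) (F1v r h q1) h K hq h1 h2 A.s1 A.s2 a b c d x4
  have t23 := fun a b c d : V => EE23 (F3v r h q) (F1v r h q1) h K hq h1 h2 A.s1 A.s2 a b c d x4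
  have hp := redAll_true A hred x0 x1 x2 x3
  unfold anyPerm at hp
  simp only [Bool.or_eq_true] at hp
  rcases hp with hp | hp | hp | hp | hp | hp | hp | hp | hp | hp | hp | hp | hp | hp | hp | hp | hp | hp | hp | hp | hp | hp | hp | hp
  · exact key x0 x1 x2 x3 hp
  · have e := key x0 x1 x3 x2 (by rw [((A.s2 x0 x3 x2) : h x0 x3 x2 = h x0 x2 x3), ((A.s2 x1 x3 x2) : h x1 x3 x2 = h x1 x2 x3)]; exact hp)
    exact (le_of_eq ((t23 x0 x1 x2 x3)).symm).trans e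
  · have e := key x0 x2 x1 x3 (by rw [((A.s2 x0 x2 x1) : h x0 x2 x1 = h x0 x1 x2), ((A.s1 x2 x1 x3) : h x2 x1 x3 = h x1 x2 x3)]; exact hp)
    exact (le_of_eq ((t12 x0 x1 x2 x3)).symm).trans e
  · have e := key x0 x2 x3 x1 (by rw [((A.s2 x0 x2 x1) : h x0 x2 x1 = h x0 x1 x2), ((A.s2 x0 x3 x1) : h x0 x3 x1 = h x0 x1 x3), (((A.s2 x2 x3 x1)).trans (A.s1 x2 x1 x3) : h x2 x3 x1 = h x1 x2 x3)]; exact hp)
    exact (le_of_eq (((t23 x0 x2 x1 x3)).trans (t12 x0 x1 x2 x3)).symm).trans e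
  · have e := key x0 x3 x1 x2 (by rw [((A.s2 x0 x3 x1) : h x0 x3 x1 = h x0 x1 x3), ((A.s2 x0 x3 x2) : h x0 x3 x2 = h x0 x2 x3), (((A.s1 x3 x1 x2)).trans (A.s2 x1 x3 x2) : h x3 x1 x2 = h x1 x2 x3)]; exact hp)
    exact (le_of_eq (((t12 x0 x1 x3 x2)).trans (t23 x0 x1 x2 x3)).symm).trans e
  · have e := key x0 x3 x2 x1 (by rw [((A.s2 x0 x3 x2) : h x0 x3 x2 = h x0 x2 x3), ((A.s2 x0 x3 x1) : h x0 x3 x1 = h x0 x1 x3), ((A.s2 x0 x2 x1) : h x0 x2 x1 = h x0 x1 x2), ((((A.s1 x3 x2 x1)).trans (A.s2 x2 x3 x1)).trans (A.s1 x2 x1 x3) : h x3 x2 x1 = h x1 x2 x3)]; exact hp)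
    exact (le_of_eq ((((t12 x0 x2 x3 x1)).trans (t23 x0 x2 x1 x3)).trans (t12 x0 x1 x2 x3)).symm).trans e
  · have e := key x1 x0 x2 x3 (by rw [((A.s1 x1 x0 x2) : h x1 x0 x2 = h x0 x1 x2), ((A.s1 x1 x0 x3) : h x1 x0 x3 = h x0 x1 x3)]; exact hp)
    exact (le_of_eq ((t01 x0 x1 x2 x3)).symm).trans e
  · have e := key x1 x0 x3 x2 (by rw [((A.s1 x1 x0 x3) : h x1 x0 x3 = h x0 x1 x3), ((A.s1 x1 x0 x2) : h x1 x0 x2 = h x0 x1 x2), ((A.s2 x1 x3 x2) : h x1 x3 x2 = h x1 x2 x3), ((A.s2 x0 x3 x2) : h x0 x3 x2 = h x0 x2 x3)]; exact hp)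
    exact (le_of_eq (((t01 x0 x1 x3 x2)).trans (t23 x0 x1 x2 x3)).symm).trans e
  · have e := key x1 x2 x0 x3 (by rw [(((A.s2 x1 x2 x0)).trans (A.s1 x1 x0 x2) : h x1 x2 x0 = h x0 x1 x2), ((A.s1 x1 x0 x3) : h x1 x0 x3 = h x0 x1 x3), ((A.s1 x2 x0 x3) : h x2 x0 x3 = h x0 x2 x3)]; exact hp)
    exact (le_of_eq (((t12 x1 x0 x2 x3)).trans (t01 x0 x1 x2 x3)).symm).trans e
  · have e := key x1 x2 x3 x0 (by rw [(((A.s2 x1 x2 x0)).trans (A.s1 x1 x0 x2) : h x1 x2 x0 = h x0 x1 x2), (((A.s2 x1 x3 x0)).trans (A.s1 x1 x0 x3) : h x1 x3 x0 = h x0 x1 x3), (((A.s2 x2 x3 x0)).trans (A.s1 x2 x0 x3) : h x2 x3 x0 = h x0 x2 x3)]; exact hp)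
    exact (le_of_eq ((((t23 x1 x2 x0 x3)).trans (t12 x1 x0 x2 x3)).trans (t01 x0 x1 x2 x3)).symm).trans e
  · have e := key x1 x3 x0 x2 (by rw [(((A.s2 x1 x3 x0)).trans (A.s1 x1 x0 x3) : h x1 x3 x0 = h x0 x1 x3), ((A.s2 x1 x3 x2) : h x1 x3 x2 = h x1 x2 x3), ((A.s1 x1 x0 x2) : h x1 x0 x2 = h x0 x1 x2), (((A.s1 x3 x0 x2)).trans (A.s2 x0 x3 x2) : h x3 x0 x2 = h x0 x2 x3)]; exact hp)
    exact (le_of_eq ((((t12 x1 x0 x3 x2)).trans (t01 x0 x1 x3 x2)).trans (t23 x0 x1 x2 x3)).symm).trans e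
  · have e := key x1 x3 x2 x0 (by rw [((A.s2 x1 x3 x2) : h x1 x3 x2 = h x1 x2 x3), (((A.s2 x1 x3 x0)).trans (A.s1 x1 x0 x3) : h x1 x3 x0 = h x0 x1 x3), (((A.s2 x1 x2 x0)).trans (A.s1 x1 x0 x2) : h x1 x2 x0 = h x0 x1 x2), ((((A.s1 x3 x2 x0)).trans (A.s2 x2 x3 x0)).trans (A.s1 x2 x0 x3) : h x3 x2 x0 = h x0 x2 x3)]; exact hp)
    exact (le_of_eq (((((t12 x1 x2 x3 x0)).trans (t23 x1 x2 x0 x3)).trans (t12 x1 x0 x2 x3)).trans (t01 x0 x1 x2 x3)).symm).trans e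
  · have e := key x2 x0 x1 x3 (by rw [(((A.s1 x2 x0 x1)).trans (A.s2 x0 x2 x1) : h x2 x0 x1 = h x0 x1 x2), ((A.s1 x2 x0 x3) : h x2 x0 x3 = h x0 x2 x3), ((A.s1 x2 x1 x3) : h x2 x1 x3 = h x1 x2 x3)]; exact hp)
    exact (le_of_eq (((t01 x0 x2 x1 x3)).trans (t12 x0 x1 x2 x3)).symm).trans e
  · have e := key x2 x0 x3 x1 (by rw [((A.s1 x2 x0 x3) : h x2 x0 x3 = h x0 x2 x3), (((A.s1 x2 x0 x1)).trans (A.s2 x0 x2 x1) : h x2 x0 x1 = h x0 x1 x2), (((A.s2 x2 x3 x1)).trans (A.s1 x2 x1 x3) : h x2 x3 x1 = h x1 x2 x3), ((A.s2 x0 x3 x1) : h x0 x3 x1 = h x0 x1 x3)]; exact hp)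
    exact (le_of_eq ((((t01 x0 x2 x3 x1)).trans (t23 x0 x2 x1 x3)).trans (t12 x0 x1 x2 x3)).symm).trans e
  · have e := key x2 x1 x0 x3 (by rw [((((A.s1 x2 x1 x0)).trans (A.s2 x1 x2 x0)).trans (A.s1 x1 x0 x2) : h x2 x1 x0 = h x0 x1 x2), ((A.s1 x2 x1 x3) : h x2 x1 x3 = h x1 x2 x3), ((A.s1 x2 x0 x3) : h x2 x0 x3 = h x0 x2 x3), ((A.s1 x1 x0 x3) : h x1 x0 x3 = h x0 x1 x3)]; exact hp)
    exact (le_of_eq ((((t01 x1 x2 x0 x3)).trans (t12 x1 x0 x2 x3)).trans (t01 x0 x1 x2 x3)).symm).trans e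
  · have e := key x2 x1 x3 x0 (by rw [((A.s1 x2 x1 x3) : h x2 x1 x3 = h x1 x2 x3), ((((A.s1 x2 x1 x0)).trans (A.s2 x1 x2 x0)).trans (A.s1 x1 x0 x2) : h x2 x1 x0 = h x0 x1 x2), (((A.s2 x2 x3 x0)).trans (A.s1 x2 x0 x3) : h x2 x3 x0 = h x0 x2 x3), (((A.s2 x1 x3 x0)).trans (A.s1 x1 x0 x3) : h x1 x3 x0 = h x0 x1 x3)]; exact hp)
    exact (le_of_eq (((((t01 x1 x2 x3 x0)).trans (t23 x1 x2 x0 x3)).trans (t12 x1 x0 x2 x3)).trans (t01 x0 x1 x2 x3)).symm).trans e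
  · have e := key x2 x3 x0 x1 (by rw [(((A.s2 x2 x3 x0)).trans (A.s1 x2 x0 x3) : h x2 x3 x0 = h x0 x2 x3), (((A.s2 x2 x3 x1)).trans (A.s1 x2 x1 x3) : h x2 x3 x1 = h x1 x2 x3), (((A.s1 x2 x0 x1)).trans (A.s2 x0 x2 x1) : h x2 x0 x1 = h x0 x1 x2), (((A.s1 x3 x0 x1)).trans (A.s2 x0 x3 x1) : h x3 x0 x1 = h x0 x1 x3)]; exact hp)
    exact (le_of_eq (((((t12 x2 x0 x3 x1)).trans (t01 x0 x2 x3 x1)).trans (t23 x0 x2 x1 x3)).trans (t12 x0 x1 x2 x3)).symm).trans e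
  · have e := key x2 x3 x1 x0 (by rw [(((A.s2 x2 x3 x1)).trans (A.s1 x2 x1 x3) : h x2 x3 x1 = h x1 x2 x3), (((A.s2 x2 x3 x0)).trans (A.s1 x2 x0 x3) : h x2 x3 x0 = h x0 x2 x3), ((((A.s1 x2 x1 x0)).trans (A.s2 x1 x2 x0)).trans (A.s1 x1 x0 x2) : h x2 x1 x0 = h x0 x1 x2), ((((A.s1 x3 x1 x0)).trans (A.s2 x1 x3 x0)).trans (A.s1 x1 x0 x3) : h x3 x1 x0 = h x0 x1 x3)]; exact hp)
    exact (le_of_eq ((((((t12 x2 x1 x3 x0)).trans (t01 x1 x2 x3 x0)).trans (t23 x1 x2 x0 x3)).trans (t12 x1 x0 x2 x3)).trans (t01 x0 x1 x2 x3)).symm).trans e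
  · have e := key x3 x0 x1 x2 (by rw [(((A.s1 x3 x0 x1)).trans (A.s2 x0 x3 x1) : h x3 x0 x1 = h x0 x1 x3), (((A.s1 x3 x0 x2)).trans (A.s2 x0 x3 x2) : h x3 x0 x2 = h x0 x2 x3), (((A.s1 x3 x1 x2)).trans (A.s2 x1 x3 x2) : h x3 x1 x2 = h x1 x2 x3)]; exact hp)
    exact (le_of_eq ((((t01 x0 x3 x1 x2)).trans (t12 x0 x1 x3 x2)).trans (t23 x0 x1 x2 x3)).symm).trans e
  · have e := key x3 x0 x2 x1 (by rw [(((A.s1 x3 x0 x2)).trans (A.s2 x0 x3 x2) : h x3 x0 x2 = h x0 x2 x3), (((A.s1 x3 x0 x1)).trans (A.s2 x0 x3 x1) : h x3 x0 x1 = h x0 x1 x3), ((((A.s1 x3 x2 x1)).trans (A.s2 x2 x3 x1)).trans (A.s1 x2 x1 x3) : h x3 x2 x1 = h x1 x2 x3), ((A.s2 x0 x2 x1) : h x0 x2 x1 = h x0 x1 x2)]; exact hp)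
    exact (le_of_eq (((((t01 x0 x3 x2 x1)).trans (t12 x0 x2 x3 x1)).trans (t23 x0 x2 x1 x3)).trans (t12 x0 x1 x2 x3)).symm).trans e
  · have e := key x3 x1 x0 x2 (by rw [((((A.s1 x3 x1 x0)).trans (A.s2 x1 x3 x0)).trans (A.s1 x1 x0 x3) : h x3 x1 x0 = h x0 x1 x3), (((A.s1 x3 x1 x2)).trans (A.s2 x1 x3 x2) : h x3 x1 x2 = h x1 x2 x3), (((A.s1 x3 x0 x2)).trans (A.s2 x0 x3 x2) : h x3 x0 x2 = h x0 x2 x3), ((A.s1 x1 x0 x2) : h x1 x0 x2 = h x0 x1 x2)]; exact hp)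
    exact (le_of_eq (((((t01 x1 x3 x0 x2)).trans (t12 x1 x0 x3 x2)).trans (t01 x0 x1 x3 x2)).trans (t23 x0 x1 x2 x3)).symm).trans e
  · have e := key x3 x1 x2 x0 (by rw [(((A.s1 x3 x1 x2)).trans (A.s2 x1 x3 x2) : h x3 x1 x2 = h x1 x2 x3), ((((A.s1 x3 x1 x0)).trans (A.s2 x1 x3 x0)).trans (A.s1 x1 x0 x3) : h x3 x1 x0 = h x0 x1 x3), ((((A.s1 x3 x2 x0)).trans (A.s2 x2 x3 x0)).trans (A.s1 x2 x0 x3) : h x3 x2 x0 = h x0 x2 x3), (((A.s2 x1 x2 x0)).trans (A.s1 x1 x0 x2) : h x1 x2 x0 = h x0 x1 x2)]; exact hp)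
    exact (le_of_eq ((((((t01 x1 x3 x2 x0)).trans (t12 x1 x2 x3 x0)).trans (t23 x1 x2 x0 x3)).trans (t12 x1 x0 x2 x3)).trans (t01 x0 x1 x2 x3)).symm).trans e
  · have e := key x3 x2 x0 x1 (by rw [((((A.s1 x3 x2 x0)).trans (A.s2 x2 x3 x0)).trans (A.s1 x2 x0 x3) : h x3 x2 x0 = h x0 x2 x3), ((((A.s1 x3 x2 x1)).trans (A.s2 x2 x3 x1)).trans (A.s1 x2 x1 x3) : h x3 x2 x1 = h x1 x2 x3), (((A.s1 x3 x0 x1)).trans (A.s2 x0 x3 x1) : h x3 x0 x1 = h x0 x1 x3), (((A.s1 x2 x0 x1)).trans (A.s2 x0 x2 x1) : h x2 x0 x1 = h x0 x1 x2)]; exact hp)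
    exact (le_of_eq ((((((t01 x2 x3 x0 x1)).trans (t12 x2 x0 x3 x1)).trans (t01 x0 x2 x3 x1)).trans (t23 x0 x2 x1 x3)).trans (t12 x0 x1 x2 x3)).symm).trans e
  · have e := key x3 x2 x1 x0 (by rw [((((A.s1 x3 x2 x1)).trans (A.s2 x2 x3 x1)).trans (A.s1 x2 x1 x3) : h x3 x2 x1 = h x1 x2 x3), ((((A.s1 x3 x2 x0)).trans (A.s2 x2 x3 x0)).trans (A.s1 x2 x0 x3) : h x3 x2 x0 = h x0 x2 x3), ((((A.s1 x3 x1 x0)).trans (A.s2 x1 x3 x0)).trans (A.s1 x1 x0 x3) : h x3 x1 x0 = h x0 x1 x3), ((((A.s1 x2 x1 x0)).trans (A.s2 x1 x2 x0)).trans (A.s1 x1 x0 x2) : h x2 x1 x0 = h x0 x1 x2)]; exact hp)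
    exact (le_of_eq (((((((t01 x2 x3 x1 x0)).trans (t12 x2 x1 x3 x0)).trans (t01 x1 x2 x3 x0)).trans (t23 x1 x2 x0 x3)).trans (t12 x1 x0 x2 x3)).trans (t01 x0 x1 x2 x3)).symm).trans e

end

end Pool.Agent.Helper10.Sw
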