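import Pool.Agent.Helper10.Sw.Gram
import Pool.Agent.Helper10.Sw.Cls

/-! The averaged inequality with exceptional triples. -/

set_option autoImplicit false
set_option linter.unusedSectionVars false
set_option linter.unusedVariables false
set_option maxRecDepth 100000
open Finset

namespace Pool.Agent.Helper10.Sw

section
variable {V : Type}

theorem EE_mono {F3 F1 G3 G1 : V → V → V → V → V → ℕ} {h g : V → V → V → ℕ} (K : ℕ)
    (a3 : ∀ a b c d e, F3 a b c d e ≤ G3 a b c d e) (a1 : ∀ a b c d e, F1 a b c d e ≤ G1 a b c d e)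
    (ah : ∀ a b c, h a b c ≤ g a b c) (x0 x1 x2 x3 x4 : V) :
    EE F3 F1 h K x0 x1 x2 x3 x4 ≤ EE G3 G1 g K x0 x1 x2 x3 x4 := by
  unfold EE
  refine Nat.add_le_add (Nat.add_le_add (Nat.mul_le_mul_left _ ?_) ?_) ?_
  · repeat' (first | exact ah _ _ _ | apply Nat.add_le_add)
  · repeat' (first | exact a1 _ _ _ _ _ | apply Nat.add_le_add)
  · repeat' (first | exact a3 _ _ _ _ _ | apply Nat.add_le_add)

theorem EE_le {r : V → V → ℕ} {h : V → V → V → ℕ} {q : ℕ → ℕ → ℕ → ℕ} {q1 : ℕ → ℕ → ℕ} {M : ℕ}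
    (hq : ∀ τ i j, q τ i j ≤ M) (hq1 : ∀ i j, q1 i j ≤ M) (h1 : ∀ a b c, h a b c ≤ 1) (K : ℕ)
    (x0 x1 x2 x3 x4 : V) :
    EE (F3v r h q) (F1v r h q1) h K x0 x1 x2 x3 x4 ≤ 10 * K + 75 * M := by
  refine (EE_mono (G3 := fun _ _ _ _ _ => M) (G1 := fun _ _ _ _ _ => M) (g := fun _ _ _ => 1) K
    (fun _ _ _ _ _ => hq _ _ _) (fun _ _ _ _ _ => hq1 _ _) h1 x0 x1 x2 x3 x4).trans
    (le_of_eq ?_)
  unfold EE
  ring

variable [Fintype V] [DecidableEq V]

theorem ind_le (E : Finset (Finset V)) (hE : ∀ e ∈ E, e.card = 3) :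
    ∑ a, ∑ b, ∑ c, (if ({a, b, c} : Finset V) ∈ E then 1 else 0) ≤ 6 * E.card := by
  set T : Finset (V × V × V) := univ.filter fun t =>
    ({t.1, t.2.1, t.2.2} : Finset V) ∈ E with hT
  have e : (∑ a, ∑ b, ∑ c, (if ({a, b, c} : Finset V) ∈ E then 1 else 0)) = T.card := by
    rw [hT, Finset.card_filter, Fintype.sum_prod_type]
    refine sum_congr rfl fun a _ => ?_
    rw [Fintype.sum_prod_type]
  have hmap : ∀ t ∈ T, ({t.1, t.2.1, t.2.2} : Finset V) ∈ E := fun t ht => (mem_filter.mp ht).2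
  rw [e, Finset.card_eq_sum_card_fiberwise (s := T) (t := E)
    (f := fun t : V × V × V => ({t.1, t.2.1, t.2.2} : Finset V)) hmap]
  have : ∑ _s ∈ E, 6 = 6 * E.card := by rw [sum_const, smul_eq_mul, mul_comm]
  rw [← this]
  refine sum_le_sum fun s hs => ?_
  obtain ⟨x, y, z, hxy, hxz, hyz, rfl⟩ := Finset.card_eq_three.mp (hE s hs)
  have hc : ({(x, y, z), (x, z, y), (y, x, z), (y, z, x), (z, x, y), (z, y, x)} :
      Finset (V × V × V)).card ≤ 6 := by
    refine (card_insert_le _ _).trans (Nat.succ_le_succ ?_)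
    refine (card_insert_le _ _).trans (Nat.succ_le_succ ?_)
    refine (card_insert_le _ _).trans (Nat.succ_le_succ ?_)
    refine (card_insert_le _ _).trans (Nat.succ_le_succ ?_)
    refine (card_insert_le _ _).trans (Nat.succ_le_succ ?_)
    rw [card_singleton]
  refine (card_le_card ?_).trans hc
  rintro ⟨a, b, c⟩ ht
  have h := (mem_filter.mp ht).2
  simp only at h
  have ha : a ∈ ({x, y, z} : Finset V) := by rw [← h]; simp
  have hb : b ∈ ({x, y, z} : Finset V) := by rw [← h]; simp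
  have hcc : c ∈ ({x, y, z} : Finset V) := by rw [← h]; simp
  have hx : x ∈ ({a, b, c} : Finset V) := by rw [h]; simp
  have hy : y ∈ ({a, b, c} : Finset V) := by rw [h]; simp
  have hz : z ∈ ({a, b, c} : Finset V) := by rw [h]; simp
  simp only [mem_insert, mem_singleton] at ha hb hcc hx hy hz ⊢
  have h1 := hxy.symm
  have h2 := hxz.symm
  have h3 := hyz.symm
  clear h ht hc e hmap this hT T hs hE
  rcases ha with rfl | rfl | rfl <;> rcases hb with rfl | rfl | rfl <;>
    rcases hcc with rfl | rfl | rfl <;> first | (simp; done) | (exfalso; simp_all; done)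

theorem lt_of_ten {G : Fin 5 → Fin 5 → Fin 5 → ℕ} (z1 : G 0 1 2 = 0) (z2 : G 0 1 3 = 0)
    (z3 : G 0 1 4 = 0) (z4 : G 0 2 3 = 0) (z5 : G 0 2 4 = 0) (z6 : G 0 3 4 = 0)
    (z7 : G 1 2 3 = 0) (z8 : G 1 2 4 = 0) (z9 : G 1 3 4 = 0) (z10 : G 2 3 4 = 0) :
    ∀ i j k : Fin 5, i < j → j < k → G i j k = 0 := by
  intro i j k hij hjk
  fin_cases i <;> fin_cases j <;> first
    | exact absurd hij (by decide)
    | (fin_cases k <;> first
        | exact absurd hjk (by decide)
        | exact z1 | exact z2 | exact z3 | exact z4 | exact z5 | exact z6 | exact z7 | exact z8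
        | exact z9 | exact z10)

theorem all_of_lt {E : Finset (Finset V)} (hE : ∀ e ∈ E, e.card = 3) (x : Fin 5 → V)
    (h : ∀ i j k : Fin 5, i < j → j < k → ({x i, x j, x k} : Finset V) ∉ E) :
    ∀ i j k : Fin 5, ({x i, x j, x k} : Finset V) ∉ E := by
  have hdeg : ∀ s : Finset V, s.card < 3 → s ∉ E := fun s hs hm => by
    have := hE s hm
    omega
  have sw1 : ∀ a b c : V, ({a, b, c} : Finset V) = {b, a, c} := fun a b c =>
    Finset.insert_comm a b {c}
  have sw2 : ∀ a b c : V, ({a, b, c} : Finset V) = {a, c, b} := fun a b c => by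
    rw [Finset.pair_comm b c]
  have d1 : ∀ a b : V, ({a, a, b} : Finset V) ∉ E := fun a b => hdeg _ (by
    rw [Finset.insert_eq_of_mem (by simp)]; exact lt_of_le_of_lt card_le_two (by decide))
  have d2 : ∀ a b : V, ({a, b, a} : Finset V) ∉ E := fun a b => by
    rw [sw2]; exact d1 a b
  have d3 : ∀ a b : V, ({b, a, a} : Finset V) ∉ E := fun a b => by
    rw [sw1]; exact d2 a b
  intro i j k
  rcases lt_trichotomy i j with h1 | h1 | h1
  · rcases lt_trichotomy j k with h2 | h2 | h2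
    · exact h i j k h1 h2
    · rw [h2]; exact d3 _ _
    · rcases lt_trichotomy i k with h3 | h3 | h3
      · rw [sw2]; exact h i k j h3 h2
      · rw [h3]; exact d2 _ _
      · rw [sw2, sw1]; exact h k i j h3 h1
  · rw [h1]; exact d1 _ _
  · rcases lt_trichotomy i k with h2 | h2 | h2
    · rw [sw1]; exact h j i k h1 h2
    · rw [h2]; exact d2 _ _
    · rcases lt_trichotomy j k with h3 | h3 | h3
      · rw [sw1, sw2]; exact h j k i h3 h2
      · rw [h3]; exact d3 _ _
      · rw [sw2, sw1, sw2]; exact h k j i h3 h1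

end

end Pool.Agent.Helper10.Sw
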