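import Pool.Agent.Helper10.Sw.Fin

/-! The averaged inequality with exceptional triples, local form. -/

set_option autoImplicit false
set_option linter.unusedSectionVars false
set_option linter.unusedVariables false
set_option maxRecDepth 100000
open Finset

namespace Pool.Agent.Helper10.Sw

section
variable {V : Type} [Fintype V] [DecidableEq V]

theorem tuple_bound {r : V → V → ℕ} {h : V → V → V → ℕ} {OK K B T O3 O1 : ℕ}
    {q : ℕ → ℕ → ℕ → ℕ} {q1 : ℕ → ℕ → ℕ}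
    (pr : ∀ x y, Pr (r x y) (r y x)) (h01 : ∀ a b c, h a b c = 0 ∨ h a b c = 1)
    (s1 : ∀ a b c, h a b c = h b a c) (s2 : ∀ a b c, h a b c = h a c b)
    (k4 : ∀ a b c d, nk (h a b c) (h a b d) (h a c d) (h b c d) = true)
    (hq : ∀ τ < 54, Psd 216 O3 (q τ)) (hq1 : Psd 54 O1 q1)
    (hflip : ∀ x < 3, ∀ y < 3, ∀ z z' g j, Pr z z' → g < 2 → j < 54 →
      q1 (ty x y z g) j = q1 (ty y x z' g) j)
    (hred : redAll OK T = true)
    (hchk : ∀ c, okc T c = true → ∃ T', okc T' c = true ∧ chkAll OK K B q q1 T' = true)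
    (x : Fin 5 → V)
    (hok : ∀ i j k : Fin 5,
      okc OK (ty (r (x i) (x j)) (r (x i) (x k)) (r (x j) (x k)) (h (x i) (x j) (x k))) = true) :
    EE (F3v r h q) (F1v r h q1) h K (x 0) (x 1) (x 2) (x 3) (x 4) ≤ B := by
  have hr : ∀ x y, r x y < 3 := fun x y => by
    rcases pr x y with ⟨h, -⟩ | ⟨h, -⟩ | ⟨h, -⟩ <;> omega
  have hh : ∀ a b c, h a b c < 2 := fun a b c => by
    rcases h01 a b c with h | h <;> omega
  have A : Adm (fun i j : Fin 5 => r (x i) (x j)) (fun i j k : Fin 5 => h (x i) (x j) (x k)) OK :=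
    ⟨fun i j => pr _ _, fun i j k => h01 _ _ _, fun i j k => s1 _ _ _, fun i j k => s2 _ _ _,
      hok, fun i j k l => k4 _ _ _ _⟩
  have c := bound_of A (K := K) (B := B) (q := q) (q1 := q1)
    (fun a b c u v => (hq _ (ty_lt (hr _ _) (hr _ _) (hr _ _) (hh _ _ _))).symm _ _
      (fl_lt (hr _ _) (hr _ _) (hr _ _) (hh _ _ _) (hh _ _ _) (hh _ _ _))
      (fl_lt (hr _ _) (hr _ _) (hr _ _) (hh _ _ _) (hh _ _ _) (hh _ _ _)))
    (fun a b c d e => by
      have := hflip (r (x a) (x b)) (hr _ _) (r (x a) (x c)) (hr _ _) (r (x b) (x c))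
        (r (x c) (x b)) (h (x a) (x b) (x c)) (tyv r h (x a) (x d) (x e))
        (pr _ _) (hh _ _ _) (ty_lt (hr _ _) (hr _ _) (hr _ _) (hh _ _ _))
      show q1 (ty (r (x a) (x b)) (r (x a) (x c)) (r (x b) (x c)) (h (x a) (x b) (x c)))
          (tyv r h (x a) (x d) (x e)) =
        q1 (ty (r (x a) (x c)) (r (x a) (x b)) (r (x c) (x b)) (h (x a) (x c) (x b)))
          (tyv r h (x a) (x d) (x e))
      rw [this, s2 (x a) (x b) (x c)])
    (fun a b c d e => hq1.symm _ _ (ty_lt (hr _ _) (hr _ _) (hr _ _) (hh _ _ _))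
      (ty_lt (hr _ _) (hr _ _) (hr _ _) (hh _ _ _)))
    hred hchk 0 1 2 3 4
  exact c

/-- the averaged inequality with exceptional triples -/
theorem flag_rob2 {r : V → V → ℕ} {h : V → V → V → ℕ} {K B O3 O1 M : ℕ}
    {q : ℕ → ℕ → ℕ → ℕ} {q1 : ℕ → ℕ → ℕ}
    (pr : ∀ x y, Pr (r x y) (r y x)) (h01 : ∀ a b c, h a b c = 0 ∨ h a b c = 1)
    (s1 : ∀ a b c, h a b c = h b a c) (s2 : ∀ a b c, h a b c = h a c b)
    (k4 : ∀ a b c d, nk (h a b c) (h a b d) (h a c d) (h b c d) = true)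
    (E : Finset (Finset V)) (hE : ∀ e ∈ E, e.card = 3)
    (hx : ∀ x : Fin 5 → V, (∀ i j k : Fin 5, ({x i, x j, x k} : Finset V) ∉ E) →
      EE (F3v r h q) (F1v r h q1) h K (x 0) (x 1) (x 2) (x 3) (x 4) ≤ B)
    (hM : ∀ τ i j, q τ i j ≤ M) (hM1 : ∀ i j, q1 i j ≤ M)
    (hq : ∀ τ < 54, Psd 216 O3 (q τ)) (hq1 : Psd 54 O1 q1) :
    10 * K * ((Fintype.card V : ℤ) ^ 2 * ∑ a, ∑ b, ∑ c, (h a b c : ℤ))
      + (60 * O3 + 15 * O1) * (Fintype.card V : ℤ) ^ 5 ≤ B * (Fintype.card V : ℤ) ^ 5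
      + (10 * K + 75 * M) * (60 * ((Fintype.card V : ℤ) ^ 2 * E.card)) := by
  have hr : ∀ x y, r x y < 3 := fun x y => by
    rcases pr x y with ⟨h, -⟩ | ⟨h, -⟩ | ⟨h, -⟩ <;> omega
  have hh : ∀ a b c, h a b c < 2 := fun a b c => by
    rcases h01 a b c with h | h <;> omega
  set g : V → V → V → ℕ := fun a b c => if ({a, b, c} : Finset V) ∈ E then 1 else 0 with hg
  have hg1 : ∀ a b c, g a b c = 0 → ({a, b, c} : Finset V) ∉ E := by
    intro a b c h0 hm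
    rw [hg] at h0
    simp only [if_pos hm] at h0
    exact absurd h0 (by decide)
  have b : ∀ x : Fin 5 → V, EE (F3v r h q) (F1v r h q1) h K (x 0) (x 1) (x 2) (x 3) (x 4) ≤
      B + (10 * K + 75 * M) * EE (fun _ _ _ _ _ => 0) (fun _ _ _ _ _ => 0) g 1
        (x 0) (x 1) (x 2) (x 3) (x 4) := by
    intro x
    rcases Nat.eq_zero_or_pos (EE (fun _ _ _ _ _ => 0) (fun _ _ _ _ _ => 0) g 1
        (x 0) (x 1) (x 2) (x 3) (x 4)) with h0 | hp
    · rw [h0]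
      have hz : g (x 0) (x 1) (x 2) = 0 ∧ g (x 0) (x 1) (x 3) = 0 ∧ g (x 0) (x 1) (x 4) = 0 ∧
          g (x 0) (x 2) (x 3) = 0 ∧ g (x 0) (x 2) (x 4) = 0 ∧ g (x 0) (x 3) (x 4) = 0 ∧
          g (x 1) (x 2) (x 3) = 0 ∧ g (x 1) (x 2) (x 4) = 0 ∧ g (x 1) (x 3) (x 4) = 0 ∧
          g (x 2) (x 3) (x 4) = 0 := by
        unfold EE at h0
        omega
      obtain ⟨z1, z2, z3, z4, z5, z6, z7, z8, z9, z10⟩ := hz
      have key : ∀ i j k : Fin 5, ({x i, x j, x k} : Finset V) ∉ E :=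
        all_of_lt hE x fun i j k hij hjk => hg1 _ _ _
          (lt_of_ten (G := fun i j k => g (x i) (x j) (x k)) z1 z2 z3 z4 z5 z6 z7 z8 z9 z10
            i j k hij hjk)
      have c := hx x key
      rw [Nat.mul_zero, Nat.add_zero]
      exact c
    · have c := EE_le (r := r) (h := h) hM hM1 (fun a b c => by have := hh a b c; omega) K
        (x 0) (x 1) (x 2) (x 3) (x 4)
      have d := Nat.le_mul_of_pos_right (10 * K + 75 * M) hp
      omega
  have a3 := low3' r h q hr hh O3 hq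
  have a1 := low1' r h q1 hr hh O1 hq1
  have a := sumEE h (F3v r h q) (F1v r h q1) K
  have ag := sumEE g (fun _ _ _ _ _ => 0) (fun _ _ _ _ _ => 0) 1
  simp only [Nat.cast_zero, sum_const_zero, mul_zero, add_zero, Nat.cast_one, mul_one] at ag
  have hi : (∑ a, ∑ b, ∑ c, (g a b c : ℤ)) ≤ 6 * (E.card : ℤ) := by
    have := ind_le E hE
    exact_mod_cast this
  have b' : ∑ x : Fin 5 → V, (EE (F3v r h q) (F1v r h q1) h K (x 0) (x 1) (x 2) (x 3) (x 4) : ℤ)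
      ≤ ∑ x : Fin 5 → V, ((B : ℤ) + (10 * K + 75 * M) * (EE (fun _ _ _ _ _ => 0)
        (fun _ _ _ _ _ => 0) g 1 (x 0) (x 1) (x 2) (x 3) (x 4) : ℤ)) :=
    sum_le_sum fun x _ => by exact_mod_cast b x
  have c : ∑ x : Fin 5 → V, ((B : ℤ) + (10 * K + 75 * M) * (EE (fun _ _ _ _ _ => 0)
        (fun _ _ _ _ _ => 0) g 1 (x 0) (x 1) (x 2) (x 3) (x 4) : ℤ)) =
      B * (Fintype.card V : ℤ) ^ 5 + (10 * K + 75 * M) * (10 * ((Fintype.card V : ℤ) ^ 2 *
        ∑ a, ∑ b, ∑ c, (g a b c : ℤ))) := by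
    rw [sum_add_distrib, ← mul_sum, ag, sum_const, card_univ, nsmul_eq_mul, Fintype.card_fun,
      Fintype.card_fin]
    push_cast
    ring
  rw [c, a] at b'
  have hm : (10 * (K : ℤ) + 75 * M) * (10 * ((Fintype.card V : ℤ) ^ 2 *
      ∑ a, ∑ b, ∑ c, (g a b c : ℤ))) ≤ (10 * K + 75 * M) * (60 * ((Fintype.card V : ℤ) ^ 2 * E.card)) := by
    have h1 : (0 : ℤ) ≤ 10 * (K : ℤ) + 75 * M := by positivity
    refine mul_le_mul_of_nonneg_left ?_ h1
    have h2 : (0 : ℤ) ≤ (Fintype.card V : ℤ) ^ 2 := by positivity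
    have := mul_le_mul_of_nonneg_left hi h2
    linarith
  linarith

end

end Pool.Agent.Helper10.Sw
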