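import Pool.Agent.Helper10.Sw.Stm

/-! Turán's construction: the lower bound (package SHARP). -/

set_option autoImplicit false

namespace Pool.Agent.Helper10.Sw.Sharp

open Pool.Agent.Helper10.Sw.Stm

/-- the part of a vertex -/
def p {m : ℕ} (x : Fin (3 * m)) : Fin 3 := ⟨x.val % 3, Nat.mod_lt _ (by norm_num)⟩

/-- the number of elements of `e` in the part `i` -/
def c {m : ℕ} (i : Fin 3) (e : Finset (Fin (3 * m))) : ℕ := (e.filter fun x => p x = i).card

/-- the sets with `a`, `b`, `d` elements in the three parts -/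
def A (m a b d : ℕ) : Finset (Finset (Fin (3 * m))) :=
  Finset.univ.filter fun e => c 0 e = a ∧ c 1 e = b ∧ c 2 e = d

/-- the construction of Turán -/
def H (m : ℕ) : Finset (Finset (Fin (3 * m))) := A m 1 1 1 ∪ A m 2 1 0 ∪ A m 0 2 1 ∪ A m 1 0 2

/-- the arcs -/
def R {m : ℕ} (x y : Fin (3 * m)) : Prop := p y = p x + 1

/-- one if `a = i` -/
def d (a i : Fin 3) : ℕ := if a = i then 1 else 0

/-- the condition for a triple -/
def Ed (a b c : Fin 3) : Prop :=
  (d a 0 + (d b 0 + d c 0) = 1 ∧ d a 1 + (d b 1 + d c 1) = 1 ∧ d a 2 + (d b 2 + d c 2) = 1) ∨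
  (d a 0 + (d b 0 + d c 0) = 2 ∧ d a 1 + (d b 1 + d c 1) = 1 ∧ d a 2 + (d b 2 + d c 2) = 0) ∨
  (d a 0 + (d b 0 + d c 0) = 0 ∧ d a 1 + (d b 1 + d c 1) = 2 ∧ d a 2 + (d b 2 + d c 2) = 1) ∨
  (d a 0 + (d b 0 + d c 0) = 1 ∧ d a 1 + (d b 1 + d c 1) = 0 ∧ d a 2 + (d b 2 + d c 2) = 2)

instance (a b c : Fin 3) : Decidable (Ed a b c) := by unfold Ed; infer_instance

theorem mem_A {m a b d : ℕ} {e : Finset (Fin (3 * m))} :
    e ∈ A m a b d ↔ c 0 e = a ∧ c 1 e = b ∧ c 2 e = d := by
  unfold A
  rw [Finset.mem_filter]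
  exact and_iff_right (Finset.mem_univ _)

theorem c_sum {m : ℕ} (i : Fin 3) (e : Finset (Fin (3 * m))) : c i e = ∑ x ∈ e, d (p x) i := by
  unfold c d
  rw [Finset.card_filter]

theorem c_triple {m : ℕ} (i : Fin 3) {x y z : Fin (3 * m)} (h1 : x ≠ y) (h2 : x ≠ z) (h3 : y ≠ z) :
    c i ({x, y, z} : Finset (Fin (3 * m))) = d (p x) i + (d (p y) i + d (p z) i) := by
  rw [c_sum, Finset.sum_insert (by simp [h1, h2]), Finset.sum_insert (by simp [h3]),
    Finset.sum_singleton]

theorem mem_H {m : ℕ} {x y z : Fin (3 * m)} (h1 : x ≠ y) (h2 : x ≠ z) (h3 : y ≠ z) :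
    ({x, y, z} : Finset (Fin (3 * m))) ∈ H m ↔ Ed (p x) (p y) (p z) := by
  unfold H Ed
  rw [Finset.mem_union, Finset.mem_union, Finset.mem_union, mem_A, mem_A, mem_A, mem_A,
    c_triple 0 h1 h2 h3, c_triple 1 h1 h2 h3, c_triple 2 h1 h2 h3]
  tauto

theorem card_eq {m : ℕ} (e : Finset (Fin (3 * m))) : e.card = c 0 e + (c 1 e + c 2 e) := by
  rw [c_sum, c_sum, c_sum, ← Finset.sum_add_distrib, ← Finset.sum_add_distrib,
    Finset.card_eq_sum_ones]
  refine Finset.sum_congr rfl fun x _ => ?_
  generalize p x = a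
  revert a
  decide

theorem card_mem {m : ℕ} {e : Finset (Fin (3 * m))} (he : e ∈ H m) : e.card = 3 := by
  unfold H at he
  rw [Finset.mem_union, Finset.mem_union, Finset.mem_union, mem_A, mem_A, mem_A, mem_A] at he
  rw [card_eq]
  omega

theorem Ed4 : ∀ a b c d : Fin 3, ¬ (Ed a b c ∧ Ed a b d ∧ Ed a c d ∧ Ed b c d) := by decide

theorem free (m : ℕ) : K43Free (H m) := by
  refine ⟨fun e he => card_mem he, fun S hS => ?_⟩
  obtain ⟨a, S', ha, rfl, hS'⟩ := Finset.card_eq_succ.1 hS
  obtain ⟨x, y, z, hxy, hxz, hyz, rfl⟩ := Finset.card_eq_three.1 hS'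
  have hax : a ≠ x := fun h => ha (by simp [h])
  have hay : a ≠ y := fun h => ha (by simp [h])
  have haz : a ≠ z := fun h => ha (by simp [h])
  by_contra hcon
  push Not at hcon
  have card3 : ∀ u v w : Fin (3 * m), u ≠ v → u ≠ w → v ≠ w →
      ({u, v, w} : Finset (Fin (3 * m))).card = 3 := fun u v w h1 h2 h3 =>
    Finset.card_eq_three.2 ⟨u, v, w, h1, h2, h3, rfl⟩
  have e1 := hcon {a, x, y} (by intro t; simp; tauto) (card3 _ _ _ hax hay hxy)
  have e2 := hcon {a, x, z} (by intro t; simp; tauto) (card3 _ _ _ hax haz hxz)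
  have e3 := hcon {a, y, z} (by intro t; simp; tauto) (card3 _ _ _ hay haz hyz)
  have e4 := hcon {x, y, z} (by intro t; simp; tauto) (card3 _ _ _ hxy hxz hyz)
  rw [mem_H hax hay hxy] at e1
  rw [mem_H hax haz hxz] at e2
  rw [mem_H hay haz hyz] at e3
  rw [mem_H hxy hxz hyz] at e4
  exact Ed4 _ _ _ _ ⟨e1, e2, e3, e4⟩

theorem R_ne {m : ℕ} {x y : Fin (3 * m)} (h : R x y) : x ≠ y := by
  rintro rfl
  unfold R at h
  revert h
  generalize p x = a
  revert a
  decide

theorem oriented (m : ℕ) : Oriented (R : Fin (3 * m) → Fin (3 * m) → Prop) := by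
  intro x y
  unfold R
  generalize p x = a
  generalize p y = b
  revert a b
  decide

theorem between (m : ℕ) : Between (H m) R ∅ := by
  refine ⟨?_, ?_, ?_⟩
  · intro x y z _ h1 h2 h3
    exfalso
    revert h1 h2 h3
    unfold R
    generalize p x = a
    generalize p y = b
    generalize p z = c
    revert a b c
    decide
  · intro x y z h1 h2 h3 _
    rw [mem_H h1 h2 h3]
    unfold Adj R
    generalize p x = a
    generalize p y = b
    generalize p z = c
    revert a b c
    decide
  · intro x y z h3 _ h1 h2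
    rw [mem_H (R_ne h1) (R_ne h2) h3]
    revert h1 h2
    unfold Adj R
    generalize p x = a
    generalize p y = b
    generalize p z = c
    revert a b c
    decide

theorem notAll (m : ℕ) : NotAll (H m) R ∅ := by
  rintro S _ _ ⟨⟨x, _, y, _, z, _, _, _, h1, h2, h3, _⟩, _⟩
  revert h1 h2 h3
  unfold Adj R
  generalize p x = a
  generalize p y = b
  generalize p z = c
  revert a b c
  decide

/-- the parts -/
def P (m : ℕ) (i : Fin 3) : Finset (Fin (3 * m)) := Finset.univ.filter fun x => p x = i

theorem card_P (m : ℕ) (i : Fin 3) : (P m i).card = m := by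
  have h : (P m i).card = (Finset.univ : Finset (Fin m)).card := by
    refine Finset.card_bij' (fun x _ => ⟨x.val / 3, by have := x.isLt; omega⟩)
      (fun y _ => ⟨3 * y.val + i.val, by have := y.isLt; have := i.isLt; omega⟩) ?_ ?_ ?_ ?_
    · intro x _
      exact Finset.mem_univ _
    · intro y _
      unfold P
      rw [Finset.mem_filter]
      refine ⟨Finset.mem_univ _, Fin.ext ?_⟩
      change (3 * y.val + i.val) % 3 = i.val
      have := i.isLt
      omega
    · intro x hx
      unfold P at hx
      rw [Finset.mem_filter] at hx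
      have h2 := congrArg Fin.val hx.2
      change x.val % 3 = i.val at h2
      apply Fin.ext
      change 3 * (x.val / 3) + i.val = x.val
      omega
    · intro y _
      apply Fin.ext
      change (3 * y.val + i.val) / 3 = y.val
      have := i.isLt
      omega
  rw [h, Finset.card_univ, Fintype.card_fin]

theorem mem_P {m : ℕ} {i : Fin 3} {x : Fin (3 * m)} : x ∈ P m i ↔ p x = i := by
  unfold P
  rw [Finset.mem_filter]
  exact and_iff_right (Finset.mem_univ _)

theorem cases3 : ∀ a : Fin 3, a = 0 ∨ a = 1 ∨ a = 2 := by decide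

theorem card_A (m a b e : ℕ) : (A m a b e).card = m.choose a * (m.choose b * m.choose e) := by
  have h : (A m a b e).card = ((Finset.powersetCard a (P m 0)) ×ˢ
      ((Finset.powersetCard b (P m 1)) ×ˢ (Finset.powersetCard e (P m 2)))).card := by
    refine Finset.card_bij' (fun s _ => (s.filter fun x => p x = 0, (s.filter fun x => p x = 1,
      s.filter fun x => p x = 2))) (fun t _ => t.1 ∪ (t.2.1 ∪ t.2.2)) ?_ ?_ ?_ ?_
    · intro s hs
      rw [mem_A] at hs
      rw [Finset.mem_product, Finset.mem_product, Finset.mem_powersetCard,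
        Finset.mem_powersetCard, Finset.mem_powersetCard]
      refine ⟨⟨?_, hs.1⟩, ⟨?_, hs.2.1⟩, ⟨?_, hs.2.2⟩⟩ <;>
      · intro x hx
        rw [Finset.mem_filter] at hx
        exact mem_P.2 hx.2
    · rintro ⟨t0, t1, t2⟩ ht
      rw [Finset.mem_product, Finset.mem_product, Finset.mem_powersetCard,
        Finset.mem_powersetCard, Finset.mem_powersetCard] at ht
      obtain ⟨⟨h0, k0⟩, ⟨h1, k1⟩, ⟨h2, k2⟩⟩ := ht
      simp only at h0 h1 h2 k0 k1 k2
      have e0 : (t0 ∪ (t1 ∪ t2)).filter (fun x => p x = 0) = t0 := by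
        ext x
        simp only [Finset.mem_filter, Finset.mem_union]
        constructor
        · rintro ⟨hx | hx | hx, h⟩
          · exact hx
          · have := mem_P.1 (h1 hx); rw [h] at this; exact absurd this (by decide)
          · have := mem_P.1 (h2 hx); rw [h] at this; exact absurd this (by decide)
        · exact fun hx => ⟨Or.inl hx, mem_P.1 (h0 hx)⟩
      have e1 : (t0 ∪ (t1 ∪ t2)).filter (fun x => p x = 1) = t1 := by
        ext x
        simp only [Finset.mem_filter, Finset.mem_union]
        constructor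
        · rintro ⟨hx | hx | hx, h⟩
          · have := mem_P.1 (h0 hx); rw [h] at this; exact absurd this (by decide)
          · exact hx
          · have := mem_P.1 (h2 hx); rw [h] at this; exact absurd this (by decide)
        · exact fun hx => ⟨Or.inr (Or.inl hx), mem_P.1 (h1 hx)⟩
      have e2 : (t0 ∪ (t1 ∪ t2)).filter (fun x => p x = 2) = t2 := by
        ext x
        simp only [Finset.mem_filter, Finset.mem_union]
        constructor
        · rintro ⟨hx | hx | hx, h⟩
          · have := mem_P.1 (h0 hx); rw [h] at this; exact absurd this (by decide)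
          · have := mem_P.1 (h1 hx); rw [h] at this; exact absurd this (by decide)
          · exact hx
        · exact fun hx => ⟨Or.inr (Or.inr hx), mem_P.1 (h2 hx)⟩
      rw [mem_A]
      unfold c
      simp only
      rw [e0, e1, e2]
      exact ⟨k0, k1, k2⟩
    · intro s _
      ext x
      simp only [Finset.mem_union, Finset.mem_filter]
      constructor
      · rintro (h | h | h) <;> exact h.1
      · intro hx
        rcases cases3 (p x) with h | h | h
        · exact Or.inl ⟨hx, h⟩
        · exact Or.inr (Or.inl ⟨hx, h⟩)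
        · exact Or.inr (Or.inr ⟨hx, h⟩)
    · rintro ⟨t0, t1, t2⟩ ht
      rw [Finset.mem_product, Finset.mem_product, Finset.mem_powersetCard,
        Finset.mem_powersetCard, Finset.mem_powersetCard] at ht
      obtain ⟨⟨h0, k0⟩, ⟨h1, k1⟩, ⟨h2, k2⟩⟩ := ht
      simp only at h0 h1 h2 k0 k1 k2
      refine Prod.ext ?_ (Prod.ext ?_ ?_)
      · ext x
        simp only [Finset.mem_filter, Finset.mem_union]
        constructor
        · rintro ⟨hx | hx | hx, h⟩
          · exact hx
          · have := mem_P.1 (h1 hx); rw [h] at this; exact absurd this (by decide)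
          · have := mem_P.1 (h2 hx); rw [h] at this; exact absurd this (by decide)
        · exact fun hx => ⟨Or.inl hx, mem_P.1 (h0 hx)⟩
      · ext x
        simp only [Finset.mem_filter, Finset.mem_union]
        constructor
        · rintro ⟨hx | hx | hx, h⟩
          · have := mem_P.1 (h0 hx); rw [h] at this; exact absurd this (by decide)
          · exact hx
          · have := mem_P.1 (h2 hx); rw [h] at this; exact absurd this (by decide)
        · exact fun hx => ⟨Or.inr (Or.inl hx), mem_P.1 (h1 hx)⟩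
      · ext x
        simp only [Finset.mem_filter, Finset.mem_union]
        constructor
        · rintro ⟨hx | hx | hx, h⟩
          · have := mem_P.1 (h0 hx); rw [h] at this; exact absurd this (by decide)
          · have := mem_P.1 (h1 hx); rw [h] at this; exact absurd this (by decide)
          · exact hx
        · exact fun hx => ⟨Or.inr (Or.inr hx), mem_P.1 (h2 hx)⟩
  rw [h, Finset.card_product, Finset.card_product, Finset.card_powersetCard,
    Finset.card_powersetCard, Finset.card_powersetCard, card_P, card_P, card_P]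

theorem choose2 (m : ℕ) : 2 * m.choose 2 + m = m ^ 2 := by
  induction m with
  | zero => rfl
  | succ m ih =>
    rw [Nat.choose_succ_succ' m 1, Nat.choose_one_right]
    nlinarith

theorem card_H (m : ℕ) : (H m).card = m * (m * m) + 3 * (m.choose 2 * m) := by
  unfold H
  rw [Finset.card_union_of_disjoint, Finset.card_union_of_disjoint, Finset.card_union_of_disjoint,
    card_A, card_A, card_A, card_A, Nat.choose_one_right, Nat.choose_zero_right]
  · ring
  · rw [Finset.disjoint_left]
    intro e
    rw [mem_A, mem_A]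
    omega
  · rw [Finset.disjoint_left]
    intro e
    rw [Finset.mem_union, mem_A, mem_A, mem_A]
    omega
  · rw [Finset.disjoint_left]
    intro e
    rw [Finset.mem_union, Finset.mem_union, mem_A, mem_A, mem_A, mem_A]
    omega

/-- **Turán's construction.** -/
theorem turan_sharp (m : ℕ) :
    ∃ (H : Finset (Finset (Fin (3 * m)))) (R : Fin (3 * m) → Fin (3 * m) → Prop),
      K43Free H ∧ Oriented R ∧ Between H R ∅ ∧ NotAll H R ∅ ∧
        54 * H.card + 81 * m ^ 2 = 5 * (3 * m) ^ 3 := by
  refine ⟨H m, R, free m, oriented m, between m, notAll m, ?_⟩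
  have h := choose2 m
  rw [card_H]
  have e : 54 * (m * (m * m) + 3 * (m.choose 2 * m)) + 81 * m ^ 2 =
      54 * m ^ 3 + 81 * m * (2 * m.choose 2 + m) := by ring
  rw [e, h]
  ring

end Pool.Agent.Helper10.Sw.Sharp
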