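import Pool.Agent.Helper10.Sw.Sym

/-! Averaging over all quintuples of vertices. -/

set_option autoImplicit false
set_option maxRecDepth 100000
open Finset

namespace Pool.Agent.Helper10.Sw

theorem psum {V : Type} [Fintype V] (F : V → V → V → V → V → ℤ) (g : Fin 5 → Fin 5)
    (hg : Function.Bijective g) :
    ∑ x : Fin 5 → V, F (x (g 0)) (x (g 1)) (x (g 2)) (x (g 3)) (x (g 4))
      = ∑ x : Fin 5 → V, F (x 0) (x 1) (x 2) (x 3) (x 4) := by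
  have h := Equiv.sum_comp (Equiv.arrowCongr (Equiv.ofBijective g hg).symm (Equiv.refl V))
    (fun x => F (x 0) (x 1) (x 2) (x 3) (x 4))
  rw [← h]
  rfl

def e5 (V : Type) : (Fin 5 → V) ≃ V × V × V × V × V where
  toFun x := (x 0, x 1, x 2, x 3, x 4)
  invFun p := ![p.1, p.2.1, p.2.2.1, p.2.2.2.1, p.2.2.2.2]
  left_inv x := by funext i; fin_cases i <;> rfl
  right_inv p := rfl

theorem conv {V : Type} [Fintype V] (F : V → V → V → V → V → ℤ) :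
    ∑ x : Fin 5 → V, F (x 0) (x 1) (x 2) (x 3) (x 4)
      = ∑ a, ∑ b, ∑ c, ∑ d, ∑ e, F a b c d e := by
  rw [← Equiv.sum_comp (e5 V).symm]
  simp only [Fintype.sum_prod_type]
  rfl

theorem psd {V : Type} [Fintype V] (s : Finset ℕ) (W : ℕ → ℕ) (u : ℕ → V → ℤ) :
    0 ≤ ∑ d, ∑ e, ∑ k ∈ s, (W k : ℤ) * (u k d * u k e) := by
  have h : ∑ d, ∑ e, ∑ k ∈ s, (W k : ℤ) * (u k d * u k e)
      = ∑ k ∈ s, (W k : ℤ) * ((∑ d, u k d) * ∑ e, u k e) := by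
    calc ∑ d, ∑ e, ∑ k ∈ s, (W k : ℤ) * (u k d * u k e)
        = ∑ d, ∑ k ∈ s, ∑ e, (W k : ℤ) * (u k d * u k e) :=
          sum_congr rfl fun d _ => sum_comm
      _ = ∑ k ∈ s, ∑ d, ∑ e, (W k : ℤ) * (u k d * u k e) := sum_comm
      _ = _ := by
          refine sum_congr rfl fun k _ => ?_
          rw [sum_mul_sum, mul_sum]
          refine sum_congr rfl fun d _ => ?_
          rw [mul_sum]
  rw [h]
  exact sum_nonneg fun k _ => mul_nonneg (Int.natCast_nonneg _) (mul_self_nonneg _)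

theorem ty_lt {x y z h : ℕ} (hx : x < 3) (hy : y < 3) (hz : z < 3) (hh : h < 2) :
    ty x y z h < 54 := by
  show x + (3 * y + (9 * z + 27 * h)) < 54
  omega

theorem fl_lt {x y z a b c : ℕ} (hx : x < 3) (hy : y < 3) (hz : z < 3) (ha : a < 2) (hb : b < 2)
    (hc : c < 2) : fl x y z a b c < 216 := by
  show x + (3 * y + (9 * z + 27 * (a + (2 * b + 4 * c)))) < 216
  omega

section
variable {V : Type} [Fintype V] (r : V → V → ℕ) (h : V → V → V → ℕ)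
  (q : ℕ → ℕ → ℕ → ℕ) (q1 : ℕ → ℕ → ℕ)

theorem low3 (hr : ∀ x y, r x y < 3) (hh : ∀ a b c, h a b c < 2) (O3 K3 : ℕ)
    (W3 : ℕ → ℕ → ℕ) (l3 : ℕ → ℕ → ℕ → ℤ)
    (hq : ∀ τ i j, τ < 54 → i < 216 → j < 216 → (q τ i j : ℤ) =
      O3 + ∑ k ∈ range K3, (W3 τ k : ℤ) * (l3 τ i k * l3 τ j k)) :
    (O3 : ℤ) * (Fintype.card V : ℤ) ^ 5 ≤
      ∑ x : Fin 5 → V, (F3v r h q (x 0) (x 1) (x 2) (x 3) (x 4) : ℤ) := by
  rw [conv (fun a b c d e => (F3v r h q a b c d e : ℤ))]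
  have e : (O3 : ℤ) * (Fintype.card V : ℤ) ^ 5 = ∑ a : V, ∑ b : V, ∑ c : V, ∑ d : V, ∑ e : V,
      (O3 : ℤ) := by
    simp only [sum_const, card_univ, nsmul_eq_mul]
    ring
  rw [e]
  refine sum_le_sum fun a _ => sum_le_sum fun b _ => sum_le_sum fun c _ => ?_
  have p := psd (range K3) (fun k => W3 (tyv r h a b c) k)
    (fun k u => l3 (tyv r h a b c) (flv r h a b c u) k)
  have e2 : ∀ d e : V, (F3v r h q a b c d e : ℤ) = O3 + ∑ k ∈ range K3,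
      (W3 (tyv r h a b c) k : ℤ) * (l3 (tyv r h a b c) (flv r h a b c d) k *
        l3 (tyv r h a b c) (flv r h a b c e) k) := fun d e =>
    hq _ _ _ (ty_lt (hr _ _) (hr _ _) (hr _ _) (hh _ _ _))
      (fl_lt (hr _ _) (hr _ _) (hr _ _) (hh _ _ _) (hh _ _ _) (hh _ _ _))
      (fl_lt (hr _ _) (hr _ _) (hr _ _) (hh _ _ _) (hh _ _ _) (hh _ _ _))
  simp only [e2, sum_add_distrib]
  linarith

theorem low1 (hr : ∀ x y, r x y < 3) (hh : ∀ a b c, h a b c < 2) (O1 K1 : ℕ)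
    (W1 : ℕ → ℕ) (l1 : ℕ → ℕ → ℤ)
    (hq1 : ∀ i j, i < 54 → j < 54 → (q1 i j : ℤ) =
      O1 + ∑ k ∈ range K1, (W1 k : ℤ) * (l1 i k * l1 j k)) :
    (O1 : ℤ) * (Fintype.card V : ℤ) ^ 5 ≤
      ∑ x : Fin 5 → V, (F1v r h q1 (x 0) (x 1) (x 2) (x 3) (x 4) : ℤ) := by
  rw [conv (fun a b c d e => (F1v r h q1 a b c d e : ℤ))]
  have e : (O1 : ℤ) * (Fintype.card V : ℤ) ^ 5 = ∑ a : V, ∑ b : V, ∑ c : V, ∑ d : V, ∑ e : V,
      (O1 : ℤ) := by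
    simp only [sum_const, card_univ, nsmul_eq_mul]
    ring
  rw [e]
  refine sum_le_sum fun a _ => ?_
  have p := psd (V := V × V) (range K1) W1 (fun k u => l1 (tyv r h a u.1 u.2) k)
  simp only [Fintype.sum_prod_type] at p
  have e2 : ∀ b c d e : V, (F1v r h q1 a b c d e : ℤ) = O1 + ∑ k ∈ range K1,
      (W1 k : ℤ) * (l1 (tyv r h a b c) k * l1 (tyv r h a d e) k) := fun b c d e =>
    hq1 _ _ (ty_lt (hr _ _) (hr _ _) (hr _ _) (hh _ _ _))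
      (ty_lt (hr _ _) (hr _ _) (hr _ _) (hh _ _ _))
  simp only [e2, sum_add_distrib]
  linarith

theorem sumH : ∑ x : Fin 5 → V, (h (x 0) (x 1) (x 2) : ℤ) =
    (Fintype.card V : ℤ) ^ 2 * ∑ a, ∑ b, ∑ c, (h a b c : ℤ) := by
  rw [conv (fun a b c _ _ => (h a b c : ℤ))]
  simp only [sum_const, card_univ, nsmul_eq_mul, mul_sum]
  refine sum_congr rfl fun a _ => sum_congr rfl fun b _ => sum_congr rfl fun c _ => by ring

theorem sumEE (F3 F1 : V → V → V → V → V → ℕ) (K : ℕ) :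
    ∑ x : Fin 5 → V, (EE F3 F1 h K (x 0) (x 1) (x 2) (x 3) (x 4) : ℤ) =
      10 * K * ((Fintype.card V : ℤ) ^ 2 * ∑ a, ∑ b, ∑ c, (h a b c : ℤ))
      + 15 * ∑ x : Fin 5 → V, (F1 (x 0) (x 1) (x 2) (x 3) (x 4) : ℤ)
      + 60 * ∑ x : Fin 5 → V, (F3 (x 0) (x 1) (x 2) (x 3) (x 4) : ℤ) := by
  have f3 : ∀ i0 i1 i2 i3 i4 : Fin 5, Function.Bijective ![i0, i1, i2, i3, i4] →
      ∑ x : Fin 5 → V, (F3 (x i0) (x i1) (x i2) (x i3) (x i4) : ℤ)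
      = ∑ x : Fin 5 → V, (F3 (x 0) (x 1) (x 2) (x 3) (x 4) : ℤ) :=
    fun i0 i1 i2 i3 i4 hg => psum (fun a b c d e => (F3 a b c d e : ℤ)) ![i0, i1, i2, i3, i4] hg
  have f1 : ∀ i0 i1 i2 i3 i4 : Fin 5, Function.Bijective ![i0, i1, i2, i3, i4] →
      ∑ x : Fin 5 → V, (F1 (x i0) (x i1) (x i2) (x i3) (x i4) : ℤ)
      = ∑ x : Fin 5 → V, (F1 (x 0) (x 1) (x 2) (x 3) (x 4) : ℤ) :=
    fun i0 i1 i2 i3 i4 hg => psum (fun a b c d e => (F1 a b c d e : ℤ)) ![i0, i1, i2, i3, i4] hg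
  have f0 : ∀ i0 i1 i2 i3 i4 : Fin 5, Function.Bijective ![i0, i1, i2, i3, i4] →
      ∑ x : Fin 5 → V, (h (x i0) (x i1) (x i2) : ℤ)
      = (Fintype.card V : ℤ) ^ 2 * ∑ a, ∑ b, ∑ c, (h a b c : ℤ) :=
    fun i0 i1 i2 i3 i4 hg => (psum (fun a b c _ _ => (h a b c : ℤ)) ![i0, i1, i2, i3, i4] hg).trans
      (sumH h)
  unfold EE
  simp only [Nat.cast_add, Nat.cast_mul, sum_add_distrib, ← mul_sum]
  rw [f0 0 1 2 3 4 (by decide),
    f0 0 1 3 2 4 (by decide),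
    f0 0 1 4 2 3 (by decide),
    f0 0 2 3 1 4 (by decide),
    f0 0 2 4 1 3 (by decide),
    f0 0 3 4 1 2 (by decide),
    f0 1 2 3 0 4 (by decide),
    f0 1 2 4 0 3 (by decide),
    f0 1 3 4 0 2 (by decide),
    f0 2 3 4 0 1 (by decide),
    f1 0 1 3 2 4 (by decide),
    f1 0 1 4 2 3 (by decide),
    f1 1 0 2 3 4 (by decide),
    f1 1 0 3 2 4 (by decide),
    f1 1 0 4 2 3 (by decide),
    f1 2 0 1 3 4 (by decide),
    f1 2 0 3 1 4 (by decide),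
    f1 2 0 4 1 3 (by decide),
    f1 3 0 1 2 4 (by decide),
    f1 3 0 2 1 4 (by decide),
    f1 3 0 4 1 2 (by decide),
    f1 4 0 1 2 3 (by decide),
    f1 4 0 2 1 3 (by decide),
    f1 4 0 3 1 2 (by decide),
    f3 0 1 3 2 4 (by decide),
    f3 0 1 4 2 3 (by decide),
    f3 0 2 1 3 4 (by decide),
    f3 0 2 3 1 4 (by decide),
    f3 0 2 4 1 3 (by decide),
    f3 0 3 1 2 4 (by decide),
    f3 0 3 2 1 4 (by decide),
    f3 0 3 4 1 2 (by decide),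
    f3 0 4 1 2 3 (by decide),
    f3 0 4 2 1 3 (by decide),
    f3 0 4 3 1 2 (by decide),
    f3 1 0 2 3 4 (by decide),
    f3 1 0 3 2 4 (by decide),
    f3 1 0 4 2 3 (by decide),
    f3 1 2 0 3 4 (by decide),
    f3 1 2 3 0 4 (by decide),
    f3 1 2 4 0 3 (by decide),
    f3 1 3 0 2 4 (by decide),
    f3 1 3 2 0 4 (by decide),
    f3 1 3 4 0 2 (by decide),
    f3 1 4 0 2 3 (by decide),
    f3 1 4 2 0 3 (by decide),
    f3 1 4 3 0 2 (by decide),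
    f3 2 0 1 3 4 (by decide),
    f3 2 0 3 1 4 (by decide),
    f3 2 0 4 1 3 (by decide),
    f3 2 1 0 3 4 (by decide),
    f3 2 1 3 0 4 (by decide),
    f3 2 1 4 0 3 (by decide),
    f3 2 3 0 1 4 (by decide),
    f3 2 3 1 0 4 (by decide),
    f3 2 3 4 0 1 (by decide),
    f3 2 4 0 1 3 (by decide),
    f3 2 4 1 0 3 (by decide),
    f3 2 4 3 0 1 (by decide),
    f3 3 0 1 2 4 (by decide),
    f3 3 0 2 1 4 (by decide),
    f3 3 0 4 1 2 (by decide),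
    f3 3 1 0 2 4 (by decide),
    f3 3 1 2 0 4 (by decide),
    f3 3 1 4 0 2 (by decide),
    f3 3 2 0 1 4 (by decide),
    f3 3 2 1 0 4 (by decide),
    f3 3 2 4 0 1 (by decide),
    f3 3 4 0 1 2 (by decide),
    f3 3 4 1 0 2 (by decide),
    f3 3 4 2 0 1 (by decide),
    f3 4 0 1 2 3 (by decide),
    f3 4 0 2 1 3 (by decide),
    f3 4 0 3 1 2 (by decide),
    f3 4 1 0 2 3 (by decide),
    f3 4 1 2 0 3 (by decide),
    f3 4 1 3 0 2 (by decide),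
    f3 4 2 0 1 3 (by decide),
    f3 4 2 1 0 3 (by decide),
    f3 4 2 3 0 1 (by decide),
    f3 4 3 0 1 2 (by decide),
    f3 4 3 1 0 2 (by decide),
    f3 4 3 2 0 1 (by decide)]
  ring

end

/-- the averaged inequality -/
theorem flag_main {V : Type} [Fintype V] (r : V → V → ℕ) (h : V → V → V → ℕ)
    (hr : ∀ x y, r x y < 3) (hh : ∀ a b c, h a b c < 2)
    (q : ℕ → ℕ → ℕ → ℕ) (q1 : ℕ → ℕ → ℕ) (K O3 O1 B K3 K1 : ℕ)
    (W3 : ℕ → ℕ → ℕ) (l3 : ℕ → ℕ → ℕ → ℤ) (W1 : ℕ → ℕ) (l1 : ℕ → ℕ → ℤ)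
    (hq : ∀ τ i j, τ < 54 → i < 216 → j < 216 → (q τ i j : ℤ) =
      O3 + ∑ k ∈ range K3, (W3 τ k : ℤ) * (l3 τ i k * l3 τ j k))
    (hq1 : ∀ i j, i < 54 → j < 54 → (q1 i j : ℤ) =
      O1 + ∑ k ∈ range K1, (W1 k : ℤ) * (l1 i k * l1 j k))
    (hleaf : ∀ x0 x1 x2 x3 x4 : V,
      EE (F3v r h q) (F1v r h q1) h K x0 x1 x2 x3 x4 ≤ B) :
    10 * K * ((Fintype.card V : ℤ) ^ 2 * ∑ a, ∑ b, ∑ c, (h a b c : ℤ))
      + (60 * O3 + 15 * O1) * (Fintype.card V : ℤ) ^ 5 ≤ B * (Fintype.card V : ℤ) ^ 5 := by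
  have a3 := low3 r h q hr hh O3 K3 W3 l3 hq
  have a1 := low1 r h q1 hr hh O1 K1 W1 l1 hq1
  have a := sumEE h (F3v r h q) (F1v r h q1) K
  have b : ∑ x : Fin 5 → V, (EE (F3v r h q) (F1v r h q1) h K (x 0) (x 1) (x 2) (x 3) (x 4) : ℤ)
      ≤ ∑ _x : Fin 5 → V, (B : ℤ) := sum_le_sum fun x _ => by exact_mod_cast hleaf _ _ _ _ _
  have c : ∑ _x : Fin 5 → V, (B : ℤ) = B * (Fintype.card V : ℤ) ^ 5 := by
    rw [sum_const, card_univ, nsmul_eq_mul, Fintype.card_fun, Fintype.card_fin]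
    push_cast
    ring
  rw [c, a] at b
  linarith

end Pool.Agent.Helper10.Sw
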