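import Pool.Agent.Helper10.Sw.Leaf

/-! The function `leaf` for five vertices of a structure, and its symmetries. -/

set_option autoImplicit false
set_option maxRecDepth 100000
set_option linter.unusedVariables false

namespace Pool.Agent.Helper10.Sw

section
variable {V : Type}

/-- the sum over all orders of the vertices, in terms of functions of five vertices -/
def EE (F3 F1 : V → V → V → V → V → ℕ) (H : V → V → V → ℕ) (K : ℕ) (x0 x1 x2 x3 x4 : V) : ℕ :=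
  K * (H x0 x1 x2 + H x0 x1 x3 + H x0 x1 x4 + H x0 x2 x3 + H x0 x2 x4 + H x0 x3 x4 + H x1 x2 x3 + H x1 x2 x4 + H x1 x3 x4 + H x2 x3 x4)
  + (F1 x0 x1 x2 x3 x4
    + F1 x0 x1 x3 x2 x4
    + F1 x0 x1 x4 x2 x3
    + F1 x1 x0 x2 x3 x4
    + F1 x1 x0 x3 x2 x4
    + F1 x1 x0 x4 x2 x3
    + F1 x2 x0 x1 x3 x4
    + F1 x2 x0 x3 x1 x4
    + F1 x2 x0 x4 x1 x3
    + F1 x3 x0 x1 x2 x4
    + F1 x3 x0 x2 x1 x4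
    + F1 x3 x0 x4 x1 x2
    + F1 x4 x0 x1 x2 x3
    + F1 x4 x0 x2 x1 x3
    + F1 x4 x0 x3 x1 x2)
  + (F3 x0 x1 x2 x3 x4
    + F3 x0 x1 x3 x2 x4
    + F3 x0 x1 x4 x2 x3
    + F3 x0 x2 x1 x3 x4
    + F3 x0 x2 x3 x1 x4
    + F3 x0 x2 x4 x1 x3
    + F3 x0 x3 x1 x2 x4
    + F3 x0 x3 x2 x1 x4
    + F3 x0 x3 x4 x1 x2
    + F3 x0 x4 x1 x2 x3
    + F3 x0 x4 x2 x1 x3
    + F3 x0 x4 x3 x1 x2
    + F3 x1 x0 x2 x3 x4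
    + F3 x1 x0 x3 x2 x4
    + F3 x1 x0 x4 x2 x3
    + F3 x1 x2 x0 x3 x4
    + F3 x1 x2 x3 x0 x4
    + F3 x1 x2 x4 x0 x3
    + F3 x1 x3 x0 x2 x4
    + F3 x1 x3 x2 x0 x4
    + F3 x1 x3 x4 x0 x2
    + F3 x1 x4 x0 x2 x3
    + F3 x1 x4 x2 x0 x3
    + F3 x1 x4 x3 x0 x2
    + F3 x2 x0 x1 x3 x4
    + F3 x2 x0 x3 x1 x4
    + F3 x2 x0 x4 x1 x3
    + F3 x2 x1 x0 x3 x4
    + F3 x2 x1 x3 x0 x4
    + F3 x2 x1 x4 x0 x3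
    + F3 x2 x3 x0 x1 x4
    + F3 x2 x3 x1 x0 x4
    + F3 x2 x3 x4 x0 x1
    + F3 x2 x4 x0 x1 x3
    + F3 x2 x4 x1 x0 x3
    + F3 x2 x4 x3 x0 x1
    + F3 x3 x0 x1 x2 x4
    + F3 x3 x0 x2 x1 x4
    + F3 x3 x0 x4 x1 x2
    + F3 x3 x1 x0 x2 x4
    + F3 x3 x1 x2 x0 x4
    + F3 x3 x1 x4 x0 x2
    + F3 x3 x2 x0 x1 x4
    + F3 x3 x2 x1 x0 x4
    + F3 x3 x2 x4 x0 x1
    + F3 x3 x4 x0 x1 x2
    + F3 x3 x4 x1 x0 x2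
    + F3 x3 x4 x2 x0 x1
    + F3 x4 x0 x1 x2 x3
    + F3 x4 x0 x2 x1 x3
    + F3 x4 x0 x3 x1 x2
    + F3 x4 x1 x0 x2 x3
    + F3 x4 x1 x2 x0 x3
    + F3 x4 x1 x3 x0 x2
    + F3 x4 x2 x0 x1 x3
    + F3 x4 x2 x1 x0 x3
    + F3 x4 x2 x3 x0 x1
    + F3 x4 x3 x0 x1 x2
    + F3 x4 x3 x1 x0 x2
    + F3 x4 x3 x2 x0 x1)

theorem EE01 (F3 F1 : V → V → V → V → V → ℕ) (H : V → V → V → ℕ) (K : ℕ)
    (hF : ∀ a b c u v, F3 a b c u v = F3 a b c v u) (h1 : ∀ a b c d e, F1 a b c d e = F1 a c b d e)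
    (h2 : ∀ a b c d e, F1 a b c d e = F1 a d e b c) (hH1 : ∀ a b c, H a b c = H b a c)
    (hH2 : ∀ a b c, H a b c = H a c b) (x0 x1 x2 x3 x4 : V) :
    EE F3 F1 H K x1 x0 x2 x3 x4 = EE F3 F1 H K x0 x1 x2 x3 x4 := by
  unfold EE
  have g0 : F1 x2 x1 x0 x3 x4 = F1 x2 x0 x1 x3 x4 := h1 x2 x1 x0 x3 x4
  have g1 : F1 x2 x1 x3 x0 x4 = F1 x2 x0 x4 x1 x3 := h2 x2 x1 x3 x0 x4
  have g2 : F1 x2 x1 x4 x0 x3 = F1 x2 x0 x3 x1 x4 := h2 x2 x1 x4 x0 x3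
  have g3 : F1 x3 x1 x0 x2 x4 = F1 x3 x0 x1 x2 x4 := h1 x3 x1 x0 x2 x4
  have g4 : F1 x3 x1 x2 x0 x4 = F1 x3 x0 x4 x1 x2 := h2 x3 x1 x2 x0 x4
  have g5 : F1 x3 x1 x4 x0 x2 = F1 x3 x0 x2 x1 x4 := h2 x3 x1 x4 x0 x2
  have g6 : F1 x4 x1 x0 x2 x3 = F1 x4 x0 x1 x2 x3 := h1 x4 x1 x0 x2 x3
  have g7 : F1 x4 x1 x2 x0 x3 = F1 x4 x0 x3 x1 x2 := h2 x4 x1 x2 x0 x3
  have g8 : F1 x4 x1 x3 x0 x2 = F1 x4 x0 x2 x1 x3 := h2 x4 x1 x3 x0 x2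
  have k0 : H x1 x0 x2 = H x0 x1 x2 := (hH1 x1 x0 x2)
  have k1 : H x1 x0 x3 = H x0 x1 x3 := (hH1 x1 x0 x3)
  have k2 : H x1 x0 x4 = H x0 x1 x4 := (hH1 x1 x0 x4)
  simp only [hF x2 x3 x4 x1 x0, hF x2 x4 x3 x1 x0, hF x3 x2 x4 x1 x0, hF x3 x4 x2 x1 x0, hF x4 x2 x3 x1 x0, hF x4 x3 x2 x1 x0, g0, g1, g2, g3, g4, g5, g6, g7, g8, k0, k1, k2]
  ring

theorem EE12 (F3 F1 : V → V → V → V → V → ℕ) (H : V → V → V → ℕ) (K : ℕ)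
    (hF : ∀ a b c u v, F3 a b c u v = F3 a b c v u) (h1 : ∀ a b c d e, F1 a b c d e = F1 a c b d e)
    (h2 : ∀ a b c d e, F1 a b c d e = F1 a d e b c) (hH1 : ∀ a b c, H a b c = H b a c)
    (hH2 : ∀ a b c, H a b c = H a c b) (x0 x1 x2 x3 x4 : V) :
    EE F3 F1 H K x0 x2 x1 x3 x4 = EE F3 F1 H K x0 x1 x2 x3 x4 := by
  unfold EE
  have g0 : F1 x0 x2 x1 x3 x4 = F1 x0 x1 x2 x3 x4 := h1 x0 x2 x1 x3 x4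
  have g1 : F1 x0 x2 x3 x1 x4 = F1 x0 x1 x4 x2 x3 := h2 x0 x2 x3 x1 x4
  have g2 : F1 x0 x2 x4 x1 x3 = F1 x0 x1 x3 x2 x4 := h2 x0 x2 x4 x1 x3
  have g3 : F1 x3 x0 x4 x2 x1 = F1 x3 x0 x4 x1 x2 := (((h2 x3 x0 x4 x2 x1)).trans (h1 x3 x2 x1 x0 x4)).trans (h2 x3 x1 x2 x0 x4)
  have g4 : F1 x4 x0 x3 x2 x1 = F1 x4 x0 x3 x1 x2 := (((h2 x4 x0 x3 x2 x1)).trans (h1 x4 x2 x1 x0 x3)).trans (h2 x4 x1 x2 x0 x3)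
  have k0 : H x0 x2 x1 = H x0 x1 x2 := (hH2 x0 x2 x1)
  have k1 : H x2 x1 x3 = H x1 x2 x3 := (hH1 x2 x1 x3)
  have k2 : H x2 x1 x4 = H x1 x2 x4 := (hH1 x2 x1 x4)
  simp only [hF x0 x3 x4 x2 x1, hF x0 x4 x3 x2 x1, hF x3 x0 x4 x2 x1, hF x3 x4 x0 x2 x1, hF x4 x0 x3 x2 x1, hF x4 x3 x0 x2 x1, g0, g1, g2, g3, g4, k0, k1, k2]
  ring

theorem EE23 (F3 F1 : V → V → V → V → V → ℕ) (H : V → V → V → ℕ) (K : ℕ)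
    (hF : ∀ a b c u v, F3 a b c u v = F3 a b c v u) (h1 : ∀ a b c d e, F1 a b c d e = F1 a c b d e)
    (h2 : ∀ a b c d e, F1 a b c d e = F1 a d e b c) (hH1 : ∀ a b c, H a b c = H b a c)
    (hH2 : ∀ a b c, H a b c = H a c b) (x0 x1 x2 x3 x4 : V) :
    EE F3 F1 H K x0 x1 x3 x2 x4 = EE F3 F1 H K x0 x1 x2 x3 x4 := by
  unfold EE
  have g0 : F1 x0 x1 x4 x3 x2 = F1 x0 x1 x4 x2 x3 := (((h2 x0 x1 x4 x3 x2)).trans (h1 x0 x3 x2 x1 x4)).trans (h2 x0 x2 x3 x1 x4)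
  have g1 : F1 x1 x0 x4 x3 x2 = F1 x1 x0 x4 x2 x3 := (((h2 x1 x0 x4 x3 x2)).trans (h1 x1 x3 x2 x0 x4)).trans (h2 x1 x2 x3 x0 x4)
  have g2 : F1 x4 x0 x1 x3 x2 = F1 x4 x0 x1 x2 x3 := (((h2 x4 x0 x1 x3 x2)).trans (h1 x4 x3 x2 x0 x1)).trans (h2 x4 x2 x3 x0 x1)
  have k0 : H x0 x3 x2 = H x0 x2 x3 := (hH2 x0 x3 x2)
  have k1 : H x1 x3 x2 = H x1 x2 x3 := (hH2 x1 x3 x2)
  have k2 : H x3 x2 x4 = H x2 x3 x4 := (hH1 x3 x2 x4)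
  simp only [hF x0 x1 x4 x3 x2, hF x0 x4 x1 x3 x2, hF x1 x0 x4 x3 x2, hF x1 x4 x0 x3 x2, hF x4 x0 x1 x3 x2, hF x4 x1 x0 x3 x2, g0, g1, g2, k0, k1, k2]
  ring

variable (r : V → V → ℕ) (h : V → V → V → ℕ) (q : ℕ → ℕ → ℕ → ℕ) (q1 : ℕ → ℕ → ℕ)

/-- code of a triple of vertices -/
def tyv (a b c : V) : ℕ := ty (r a b) (r a c) (r b c) (h a b c)
/-- code of a further vertex -/
def flv (a b c u : V) : ℕ := fl (r a u) (r b u) (r c u) (h a b u) (h a c u) (h b c u)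
def F3v (a b c u v : V) : ℕ := q (tyv r h a b c) (flv r h a b c u) (flv r h a b c v)
def F1v (a b c d e : V) : ℕ := q1 (tyv r h a b c) (tyv r h a d e)

theorem EE_leaf (K : ℕ) (hH1 : ∀ a b c, h a b c = h b a c) (hH2 : ∀ a b c, h a b c = h a c b)
    (x0 x1 x2 x3 x4 : V) :
    EE (F3v r h q) (F1v r h q1) h K x0 x1 x2 x3 x4 =
      leaf K q q1 (r x0 x1) (r x1 x0) (r x0 x2) (r x2 x0) (r x0 x3) (r x3 x0) (r x0 x4) (r x4 x0) (r x1 x2) (r x2 x1) (r x1 x3) (r x3 x1) (r x1 x4) (r x4 x1) (r x2 x3) (r x3 x2) (r x2 x4) (r x4 x2) (r x3 x4) (r x4 x3) (h x0 x1 x2) (h x0 x1 x3) (h x0 x1 x4) (h x0 x2 x3) (h x0 x2 x4) (h x0 x3 x4) (h x1 x2 x3) (h x1 x2 x4) (h x1 x3 x4) (h x2 x3 x4) := by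
  have k0 : h x0 x2 x1 = h x0 x1 x2 := (hH2 x0 x2 x1)
  have k1 : h x1 x0 x2 = h x0 x1 x2 := (hH1 x1 x0 x2)
  have k2 : h x1 x2 x0 = h x0 x1 x2 := ((hH2 x1 x2 x0)).trans (hH1 x1 x0 x2)
  have k3 : h x2 x0 x1 = h x0 x1 x2 := ((hH1 x2 x0 x1)).trans (hH2 x0 x2 x1)
  have k4 : h x2 x1 x0 = h x0 x1 x2 := (((hH1 x2 x1 x0)).trans (hH2 x1 x2 x0)).trans (hH1 x1 x0 x2)
  have k5 : h x0 x3 x1 = h x0 x1 x3 := (hH2 x0 x3 x1)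
  have k6 : h x1 x0 x3 = h x0 x1 x3 := (hH1 x1 x0 x3)
  have k7 : h x1 x3 x0 = h x0 x1 x3 := ((hH2 x1 x3 x0)).trans (hH1 x1 x0 x3)
  have k8 : h x3 x0 x1 = h x0 x1 x3 := ((hH1 x3 x0 x1)).trans (hH2 x0 x3 x1)
  have k9 : h x3 x1 x0 = h x0 x1 x3 := (((hH1 x3 x1 x0)).trans (hH2 x1 x3 x0)).trans (hH1 x1 x0 x3)
  have k10 : h x0 x4 x1 = h x0 x1 x4 := (hH2 x0 x4 x1)
  have k11 : h x1 x0 x4 = h x0 x1 x4 := (hH1 x1 x0 x4)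
  have k12 : h x1 x4 x0 = h x0 x1 x4 := ((hH2 x1 x4 x0)).trans (hH1 x1 x0 x4)
  have k13 : h x4 x0 x1 = h x0 x1 x4 := ((hH1 x4 x0 x1)).trans (hH2 x0 x4 x1)
  have k14 : h x4 x1 x0 = h x0 x1 x4 := (((hH1 x4 x1 x0)).trans (hH2 x1 x4 x0)).trans (hH1 x1 x0 x4)
  have k15 : h x0 x3 x2 = h x0 x2 x3 := (hH2 x0 x3 x2)
  have k16 : h x2 x0 x3 = h x0 x2 x3 := (hH1 x2 x0 x3)
  have k17 : h x2 x3 x0 = h x0 x2 x3 := ((hH2 x2 x3 x0)).trans (hH1 x2 x0 x3)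
  have k18 : h x3 x0 x2 = h x0 x2 x3 := ((hH1 x3 x0 x2)).trans (hH2 x0 x3 x2)
  have k19 : h x3 x2 x0 = h x0 x2 x3 := (((hH1 x3 x2 x0)).trans (hH2 x2 x3 x0)).trans (hH1 x2 x0 x3)
  have k20 : h x0 x4 x2 = h x0 x2 x4 := (hH2 x0 x4 x2)
  have k21 : h x2 x0 x4 = h x0 x2 x4 := (hH1 x2 x0 x4)
  have k22 : h x2 x4 x0 = h x0 x2 x4 := ((hH2 x2 x4 x0)).trans (hH1 x2 x0 x4)
  have k23 : h x4 x0 x2 = h x0 x2 x4 := ((hH1 x4 x0 x2)).trans (hH2 x0 x4 x2)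
  have k24 : h x4 x2 x0 = h x0 x2 x4 := (((hH1 x4 x2 x0)).trans (hH2 x2 x4 x0)).trans (hH1 x2 x0 x4)
  have k25 : h x0 x4 x3 = h x0 x3 x4 := (hH2 x0 x4 x3)
  have k26 : h x3 x0 x4 = h x0 x3 x4 := (hH1 x3 x0 x4)
  have k27 : h x3 x4 x0 = h x0 x3 x4 := ((hH2 x3 x4 x0)).trans (hH1 x3 x0 x4)
  have k28 : h x4 x0 x3 = h x0 x3 x4 := ((hH1 x4 x0 x3)).trans (hH2 x0 x4 x3)
  have k29 : h x4 x3 x0 = h x0 x3 x4 := (((hH1 x4 x3 x0)).trans (hH2 x3 x4 x0)).trans (hH1 x3 x0 x4)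
  have k30 : h x1 x3 x2 = h x1 x2 x3 := (hH2 x1 x3 x2)
  have k31 : h x2 x1 x3 = h x1 x2 x3 := (hH1 x2 x1 x3)
  have k32 : h x2 x3 x1 = h x1 x2 x3 := ((hH2 x2 x3 x1)).trans (hH1 x2 x1 x3)
  have k33 : h x3 x1 x2 = h x1 x2 x3 := ((hH1 x3 x1 x2)).trans (hH2 x1 x3 x2)
  have k34 : h x3 x2 x1 = h x1 x2 x3 := (((hH1 x3 x2 x1)).trans (hH2 x2 x3 x1)).trans (hH1 x2 x1 x3)
  have k35 : h x1 x4 x2 = h x1 x2 x4 := (hH2 x1 x4 x2)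
  have k36 : h x2 x1 x4 = h x1 x2 x4 := (hH1 x2 x1 x4)
  have k37 : h x2 x4 x1 = h x1 x2 x4 := ((hH2 x2 x4 x1)).trans (hH1 x2 x1 x4)
  have k38 : h x4 x1 x2 = h x1 x2 x4 := ((hH1 x4 x1 x2)).trans (hH2 x1 x4 x2)
  have k39 : h x4 x2 x1 = h x1 x2 x4 := (((hH1 x4 x2 x1)).trans (hH2 x2 x4 x1)).trans (hH1 x2 x1 x4)
  have k40 : h x1 x4 x3 = h x1 x3 x4 := (hH2 x1 x4 x3)
  have k41 : h x3 x1 x4 = h x1 x3 x4 := (hH1 x3 x1 x4)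
  have k42 : h x3 x4 x1 = h x1 x3 x4 := ((hH2 x3 x4 x1)).trans (hH1 x3 x1 x4)
  have k43 : h x4 x1 x3 = h x1 x3 x4 := ((hH1 x4 x1 x3)).trans (hH2 x1 x4 x3)
  have k44 : h x4 x3 x1 = h x1 x3 x4 := (((hH1 x4 x3 x1)).trans (hH2 x3 x4 x1)).trans (hH1 x3 x1 x4)
  have k45 : h x2 x4 x3 = h x2 x3 x4 := (hH2 x2 x4 x3)
  have k46 : h x3 x2 x4 = h x2 x3 x4 := (hH1 x3 x2 x4)
  have k47 : h x3 x4 x2 = h x2 x3 x4 := ((hH2 x3 x4 x2)).trans (hH1 x3 x2 x4)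
  have k48 : h x4 x2 x3 = h x2 x3 x4 := ((hH1 x4 x2 x3)).trans (hH2 x2 x4 x3)
  have k49 : h x4 x3 x2 = h x2 x3 x4 := (((hH1 x4 x3 x2)).trans (hH2 x3 x4 x2)).trans (hH1 x3 x2 x4)
  unfold EE F3v F1v tyv flv leaf
  simp only [k0, k1, k2, k3, k4, k5, k6, k7, k8, k9, k10, k11, k12, k13, k14, k15, k16, k17, k18, k19, k20, k21, k22, k23, k24, k25, k26, k27, k28, k29, k30, k31, k32, k33, k34, k35, k36, k37, k38, k39, k40, k41, k42, k43, k44, k45, k46, k47, k48, k49, Nat.add_eq, Nat.mul_eq]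
  ring

end

end Pool.Agent.Helper10.Sw
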