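import Pool.Agent.Helper10.Sw.Red

/-! From 3-graphs and oriented graphs to codes, and the final count. -/

set_option autoImplicit false
set_option linter.unusedSectionVars false
set_option synthInstance.maxSize 100000
set_option maxRecDepth 100000
open Finset

namespace Pool.Agent.Helper10.Sw

/-- admissible codes of triples: no non-edge with a transitive triangle, no edge without arcs or
with two arcs from a common vertex and no third arc -/
def OKs : ℕ := 0x37ffbf71bd9fff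

open scoped Classical in
/-- code of the relation between two vertices -/
noncomputable def rl {V : Type} (R : V → V → Prop) (x y : V) : ℕ :=
  if R x y then 1 else if R y x then 2 else 0

open scoped Classical in
/-- whether a triple of vertices is an edge -/
noncomputable def hd {V : Type} [DecidableEq V] (H : Finset (Finset V)) (a b c : V) : ℕ :=
  if a ≠ b ∧ a ≠ c ∧ b ≠ c ∧ ({a, b, c} : Finset V) ∈ H then 1 else 0

theorem ok_table : ∀ x < 3, ∀ y < 3, ∀ z < 3, ∀ h < 2, okc OKs (ty x y z h) = true ∨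
    (h = 0 ∧ ((x = 1 ∧ y = 1 ∧ z = 1) ∨ (x = 1 ∧ y = 1 ∧ z = 2) ∨ (x = 1 ∧ y = 2 ∧ z = 2) ∨
      (x = 2 ∧ y = 1 ∧ z = 1) ∨ (x = 2 ∧ y = 2 ∧ z = 1) ∨ (x = 2 ∧ y = 2 ∧ z = 2))) ∨
    (h = 1 ∧ ((x = 0 ∧ y = 0 ∧ z = 0) ∨ (x = 1 ∧ y = 1 ∧ z = 0) ∨ (x = 2 ∧ y = 0 ∧ z = 1) ∨
      (x = 0 ∧ y = 2 ∧ z = 2))) := by
  decide

section
variable {V : Type} [DecidableEq V] {R : V → V → Prop} {H : Finset (Finset V)}

theorem rl0 {x y : V} (h : rl R x y = 0) : ¬ R x y ∧ ¬ R y x := by
  unfold rl at h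
  by_cases a : R x y <;> by_cases b : R y x <;> simp_all

theorem rl1 {x y : V} (h : rl R x y = 1) : R x y := by
  unfold rl at h
  by_cases a : R x y <;> by_cases b : R y x <;> simp_all

theorem rl2 {x y : V} (h : rl R x y = 2) : R y x := by
  unfold rl at h
  by_cases a : R x y <;> by_cases b : R y x <;> simp_all

theorem rl_lt (x y : V) : rl R x y < 3 := by
  unfold rl
  split_ifs <;> omega

theorem hd_lt (a b c : V) : hd H a b c < 2 := by
  unfold hd
  split_ifs <;> omega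

theorem hd_one {a b c : V} (h : hd H a b c = 1) :
    a ≠ b ∧ a ≠ c ∧ b ≠ c ∧ ({a, b, c} : Finset V) ∈ H := by
  by_contra hn
  unfold hd at h
  rw [if_neg hn] at h
  exact absurd h (by decide)

theorem hd_zero {a b c : V} (h : hd H a b c = 0) :
    ¬ (a ≠ b ∧ a ≠ c ∧ b ≠ c ∧ ({a, b, c} : Finset V) ∈ H) := by
  intro hn
  unfold hd at h
  rw [if_pos hn] at h
  exact absurd h (by decide)

theorem rl_pr (hO : ∀ x y, R x y → ¬ R y x) (x y : V) : Pr (rl R x y) (rl R y x) := by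
  unfold rl Pr
  by_cases a : R x y
  · simp [a, hO x y a]
  · by_cases b : R y x
    · simp [a, b]
    · simp [a, b]

theorem hd_s1 (a b c : V) : hd H a b c = hd H b a c := by
  unfold hd
  have e : ({a, b, c} : Finset V) = {b, a, c} := Finset.insert_comm a b {c}
  rw [e]
  by_cases h : b ≠ a ∧ b ≠ c ∧ a ≠ c ∧ ({b, a, c} : Finset V) ∈ H
  · rw [if_pos h, if_pos ⟨h.1.symm, h.2.2.1, h.2.1, h.2.2.2⟩]
  · rw [if_neg h, if_neg fun h' => h ⟨h'.1.symm, h'.2.2.1, h'.2.1, h'.2.2.2⟩]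

theorem hd_s2 (a b c : V) : hd H a b c = hd H a c b := by
  unfold hd
  have e : ({a, b, c} : Finset V) = {a, c, b} := by rw [Finset.pair_comm b c]
  rw [e]
  by_cases h : a ≠ c ∧ a ≠ b ∧ c ≠ b ∧ ({a, c, b} : Finset V) ∈ H
  · rw [if_pos h, if_pos ⟨h.2.1, h.1, h.2.2.1.symm, h.2.2.2⟩]
  · rw [if_neg h, if_neg fun h' => h ⟨h'.2.1, h'.1, h'.2.2.1.symm, h'.2.2.2⟩]

theorem hd_k4 (hK : ∀ S : Finset V, S.card = 4 → ∃ T ⊆ S, T.card = 3 ∧ T ∉ H) (a b c d : V) :
    nk (hd H a b c) (hd H a b d) (hd H a c d) (hd H b c d) = true := by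
  have e : ∀ x < 2, ∀ y < 2, ∀ z < 2, ∀ w < 2, nk x y z w = true ∨
      (x = 1 ∧ y = 1 ∧ z = 1 ∧ w = 1) := by decide
  rcases e _ (hd_lt (H := H) a b c) _ (hd_lt (H := H) a b d) _ (hd_lt (H := H) a c d) _
    (hd_lt (H := H) b c d) with h | ⟨h1, h2, h3, h4⟩
  · exact h
  · exfalso
    obtain ⟨ab, ac, bc, m1⟩ := hd_one h1
    obtain ⟨-, ad, bd, m2⟩ := hd_one h2
    obtain ⟨-, -, cd, m3⟩ := hd_one h3
    obtain ⟨-, -, -, m4⟩ := hd_one h4
    obtain ⟨T, hT, hT3, hTH⟩ := hK {a, b, c, d} (by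
      rw [card_insert_of_notMem (by simp [ab, ac, ad]), card_insert_of_notMem (by simp [bc, bd]),
        card_insert_of_notMem (by simp [cd]), card_singleton])
    have hTn : T ≠ {a, b, c, d} := by
      intro h
      rw [h, card_insert_of_notMem (by simp [ab, ac, ad]), card_insert_of_notMem (by simp [bc, bd]),
        card_insert_of_notMem (by simp [cd]), card_singleton] at hT3
      exact absurd hT3 (by decide)
    obtain ⟨x, hx, hxT⟩ : ∃ x ∈ ({a, b, c, d} : Finset V), x ∉ T := by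
      by_contra hc
      push Not at hc
      exact hTn (Subset.antisymm hT fun y hy => hc y hy)
    have hsub : T ⊆ ({a, b, c, d} : Finset V).erase x := fun y hy =>
      mem_erase.mpr ⟨fun h => hxT (h ▸ hy), hT hy⟩
    have hcard : (({a, b, c, d} : Finset V).erase x).card = 3 := by
      rw [card_erase_of_mem hx, card_insert_of_notMem (by simp [ab, ac, ad]),
        card_insert_of_notMem (by simp [bc, bd]), card_insert_of_notMem (by simp [cd]),
        card_singleton]
    have heq : T = ({a, b, c, d} : Finset V).erase x :=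
      eq_of_subset_of_card_le hsub (by rw [hcard, hT3])
    simp only [mem_insert, mem_singleton] at hx
    apply hTH
    rw [heq]
    rcases hx with rfl | rfl | rfl | rfl
    · have : ({x, b, c, d} : Finset V).erase x = {b, c, d} := by
        rw [erase_insert (by simp [ab, ac, ad])]
      rw [this]; exact m4
    · have : ({a, x, c, d} : Finset V).erase x = {a, c, d} := by
        rw [Finset.insert_comm a x, erase_insert (by simp [ab.symm, bc, bd])]
      rw [this]; exact m3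
    · have : ({a, b, x, d} : Finset V).erase x = {a, b, d} := by
        rw [Finset.insert_comm b x, Finset.insert_comm a x,
          erase_insert (by simp [ac.symm, bc.symm, cd])]
      rw [this]; exact m2
    · have : ({a, b, c, x} : Finset V).erase x = {a, b, c} := by
        rw [Finset.pair_comm c x, Finset.insert_comm b x, Finset.insert_comm a x,
          erase_insert (by simp [ad.symm, bd.symm, cd.symm])]
      rw [this]; exact m1

theorem adm (hO : ∀ x y, R x y → ¬ R y x)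
    (hK : ∀ S : Finset V, S.card = 4 → ∃ T ⊆ S, T.card = 3 ∧ T ∉ H)
    (hT : ∀ x y z, R x y → R y z → R x z → ({x, y, z} : Finset V) ∈ H)
    (hE : ∀ x y z, x ≠ y → x ≠ z → y ≠ z → ({x, y, z} : Finset V) ∈ H →
      R x y ∨ R y x ∨ R x z ∨ R z x ∨ R y z ∨ R z y)
    (hS : ∀ x y z, y ≠ z → R x y → R x z → ¬ R y z → ¬ R z y → ({x, y, z} : Finset V) ∉ H) :
    Adm (rl R) (hd H) OKs where
  pr := rl_pr hO
  h01 a b c := by have := hd_lt (H := H) a b c; omega
  s1 := hd_s1
  s2 := hd_s2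
  k4 := hd_k4 hK
  ok a b c := by
    have ne : ∀ x y, R x y → x ≠ y := fun x y h e => hO x y h (e ▸ e ▸ h)
    have z0 : ∀ x y z, hd H x y z = 0 → R x y → R y z → R x z → False := by
      intro x y z h h1 h2 h3
      exact hd_zero h ⟨ne _ _ h1, ne _ _ h3, ne _ _ h2, hT x y z h1 h2 h3⟩
    rcases ok_table _ (rl_lt (R := R) a b) _ (rl_lt (R := R) a c) _ (rl_lt (R := R) b c) _
      (hd_lt (H := H) a b c) with h | ⟨h0, h⟩ | ⟨h1, h⟩
    · exact h
    · exfalso
      have p1 : hd H a c b = 0 := (hd_s2 a b c).symm.trans h0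
      have p2 : hd H b a c = 0 := (hd_s1 a b c).symm.trans h0
      have p3 : hd H c a b = 0 := (hd_s1 a c b).symm.trans p1
      have p4 : hd H b c a = 0 := (hd_s2 b a c).symm.trans p2
      have p5 : hd H c b a = 0 := (hd_s2 c a b).symm.trans p3
      rcases h with ⟨x, y, z⟩ | ⟨x, y, z⟩ | ⟨x, y, z⟩ | ⟨x, y, z⟩ | ⟨x, y, z⟩ | ⟨x, y, z⟩
      · exact z0 a b c h0 (rl1 x) (rl1 z) (rl1 y)
      · exact z0 a c b p1 (rl1 y) (rl2 z) (rl1 x)
      · exact z0 c a b p3 (rl2 y) (rl1 x) (rl2 z)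
      · exact z0 b a c p2 (rl2 x) (rl1 y) (rl1 z)
      · exact z0 b c a p4 (rl1 z) (rl2 y) (rl2 x)
      · exact z0 c b a p5 (rl2 z) (rl2 x) (rl2 y)
    · exfalso
      obtain ⟨n1, n2, n3, m⟩ := hd_one h1
      rcases h with ⟨x, y, z⟩ | ⟨x, y, z⟩ | ⟨x, y, z⟩ | ⟨x, y, z⟩
      · have e1 := rl0 x
        have e2 := rl0 y
        have e3 := rl0 z
        rcases hE a b c n1 n2 n3 m with h | h | h | h | h | h
        exacts [e1.1 h, e1.2 h, e2.1 h, e2.2 h, e3.1 h, e3.2 h]
      · exact hS a b c n3 (rl1 x) (rl1 y) (rl0 z).1 (rl0 z).2 m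
      · have e : ({a, b, c} : Finset V) = {b, a, c} := Finset.insert_comm a b {c}
        exact hS b a c n2 (rl2 x) (rl1 z) (rl0 y).1 (rl0 y).2 (e ▸ m)
      · have e : ({a, b, c} : Finset V) = {c, a, b} := by
          rw [Finset.pair_comm b c, Finset.insert_comm]
        exact hS c a b n1 (rl2 y) (rl2 z) (rl0 x).1 (rl0 x).2 (e ▸ m)

end

theorem six_le {n : ℕ} (H : Finset (Finset (Fin n))) (h3 : ∀ e ∈ H, e.card = 3) :
    6 * H.card ≤ ∑ a, ∑ b, ∑ c, hd H a b c := by
  set T : Finset (Fin n × Fin n × Fin n) := univ.filter fun t =>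
    t.1 ≠ t.2.1 ∧ t.1 ≠ t.2.2 ∧ t.2.1 ≠ t.2.2 ∧ ({t.1, t.2.1, t.2.2} : Finset (Fin n)) ∈ H with hT
  have e : ∑ a, ∑ b, ∑ c, hd H a b c = T.card := by
    rw [hT, Finset.card_filter, Fintype.sum_prod_type]
    refine sum_congr rfl fun a _ => ?_
    rw [Fintype.sum_prod_type]
    refine sum_congr rfl fun b _ => sum_congr rfl fun c _ => ?_
    unfold hd
    exact if_congr Iff.rfl rfl rfl
  rw [e, Finset.card_eq_sum_card_fiberwise (t := H)
    (f := fun t : Fin n × Fin n × Fin n => ({t.1, t.2.1, t.2.2} : Finset (Fin n)))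
    (fun t ht => (mem_filter.mp ht).2.2.2.2)]
  have : ∑ _s ∈ H, 6 = 6 * H.card := by rw [sum_const, smul_eq_mul, mul_comm]
  rw [← this]
  refine sum_le_sum fun s hs => ?_
  obtain ⟨x, y, z, hxy, hxz, hyz, rfl⟩ := Finset.card_eq_three.mp (h3 s hs)
  have hc : ({(x, y, z), (x, z, y), (y, x, z), (y, z, x), (z, x, y), (z, y, x)} :
      Finset (Fin n × Fin n × Fin n)).card = 6 := by
    rw [card_insert_of_notMem, card_insert_of_notMem, card_insert_of_notMem,
      card_insert_of_notMem, card_insert_of_notMem, card_singleton] <;>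
    simp [hxy, hxz, hyz, hxy.symm, hxz.symm, hyz.symm]
  rw [← hc]
  refine card_le_card ?_
  have f : ∀ a b c : Fin n, a ≠ b → a ≠ c → b ≠ c → ({a, b, c} : Finset (Fin n)) = {x, y, z} →
      (a, b, c) ∈ T.filter fun t => ({t.1, t.2.1, t.2.2} : Finset (Fin n)) = {x, y, z} := by
    intro a b c h1 h2 h3 h4
    rw [mem_filter, hT, mem_filter]
    exact ⟨⟨mem_univ _, h1, h2, h3, h4 ▸ hs⟩, h4⟩
  intro t ht
  simp only [mem_insert, mem_singleton] at ht
  rcases ht with rfl | rfl | rfl | rfl | rfl | rfl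
  · exact f _ _ _ hxy hxz hyz rfl
  · exact f _ _ _ hxz hxy hyz.symm (by rw [Finset.pair_comm])
  · exact f _ _ _ hxy.symm hyz hxz (by rw [Finset.insert_comm])
  · exact f _ _ _ hyz hxy.symm hxz.symm (by rw [Finset.pair_comm z x, Finset.insert_comm])
  · exact f _ _ _ hxz.symm hyz.symm hxy (by rw [Finset.insert_comm, Finset.pair_comm z y])
  · exact f _ _ _ hyz.symm hxz.symm hxy.symm (by
      rw [Finset.pair_comm y x, Finset.insert_comm, Finset.pair_comm z y])

theorem top_of {n : ℕ} (H : Finset (Finset (Fin n))) (h3 : ∀ e ∈ H, e.card = 3) (K O3 O1 : ℕ)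
    (hK : 0 < K)
    (hf : 10 * ((9 * K : ℕ) : ℤ) * ((Fintype.card (Fin n) : ℤ) ^ 2 * ∑ a, ∑ b, ∑ c, (hd H a b c : ℤ))
      + (60 * O3 + 15 * O1) * (Fintype.card (Fin n) : ℤ) ^ 5 ≤
      ((60 * O3 + 15 * O1 + 50 * K : ℕ) : ℤ) * (Fintype.card (Fin n) : ℤ) ^ 5) :
    54 * H.card ≤ 5 * n ^ 3 := by
  rw [Fintype.card_fin] at hf
  push_cast at hf
  have h6 : ((6 * H.card : ℕ) : ℤ) ≤ ∑ a, ∑ b, ∑ c, (hd H a b c : ℤ) := by
    exact_mod_cast six_le H h3
  push_cast at h6
  rcases Nat.eq_zero_or_pos n with h0 | hn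
  · subst h0
    have : H = ∅ := by
      refine eq_empty_of_forall_notMem fun e he => ?_
      have := h3 e he
      rw [Subsingleton.elim e ∅, card_empty] at this
      exact absurd this (by decide)
    rw [this]
    simp
  · have hn' : (0 : ℤ) < (n : ℤ) := by exact_mod_cast hn
    have hK' : (0 : ℤ) < (K : ℤ) := by exact_mod_cast hK
    have key : (K : ℤ) * (n : ℤ) ^ 2 * (90 * (6 * (H.card : ℤ))) ≤
        (K : ℤ) * (n : ℤ) ^ 2 * (50 * (n : ℤ) ^ 3) := by
      have := mul_le_mul_of_nonneg_left h6 (by positivity : (0 : ℤ) ≤ 90 * (K : ℤ) * (n : ℤ) ^ 2)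
      nlinarith
    have := le_of_mul_le_mul_left key (by positivity)
    have h : (54 * (H.card : ℤ)) ≤ 5 * (n : ℤ) ^ 3 := by linarith
    exact_mod_cast h

end Pool.Agent.Helper10.Sw
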